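import Pool.Agent.Work.MP_84e666_co.U.Main

/-! The same argument with tower-type time bounds in place of polynomial time. -/

namespace Pool.Agent.Work.MP_84e666_co.V

open Finset Pool.Agent.Lib.Poly U

export U (cnt cnt_eq_zero)

/-- The number of bits. -/
def lg (n : ℕ) : ℕ := sz (Bin.mk n)

theorem lt_lg (n : ℕ) : n < 2 ^ lg n := Bin.lt_two_pow ⟨n⟩

theorem lg_le {n k : ℕ} (h : n < 2 ^ k) : lg n ≤ k := Bin.sz_le h

theorem log_eq (n : ℕ) : Nat.log 2 n = lg n - 1 := by
  by_cases h : n = 0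
  · have := lg_le (n := n) (k := 0) (by omega)
    simp [h] at this ⊢
    omega
  · have h1 := lg_le (Nat.lt_pow_succ_log_self one_lt_two n)
    have h2 := (Nat.pow_lt_pow_iff_right one_lt_two).1
      ((Nat.pow_log_le_self 2 h).trans_lt (lt_lg n))
    omega

theorem lgi_mono (k : ℕ) {m n : ℕ} (h : m ≤ n) : lg^[k] m ≤ lg^[k] n :=
  Monotone.iterate (f := lg) (fun _ _ h => Bin.sz_mono h) k h

theorem log_le (k n : ℕ) : (Nat.log 2)^[k] n ≤ lg^[k] n :=
  Monotone.iterate_le_of_le (f := Nat.log 2) (fun _ _ h => Nat.log_mono_right h)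
    (fun n => (log_eq n).trans_le (Nat.sub_le _ _)) k n

/-- A tower of exponentials. -/
def ex (k n : ℕ) : ℕ := (fun x => 2 ^ x)^[k] n

theorem ex_succ (k n : ℕ) : ex (k + 1) n = 2 ^ ex k n := Function.iterate_succ_apply' _ _ _

theorem ex_mono (k : ℕ) {m n : ℕ} (h : m ≤ n) : ex k m ≤ ex k n :=
  Monotone.iterate (f := fun x => 2 ^ x) (fun _ _ h => Nat.pow_le_pow_right two_pos h) k h

theorem ex_add (k n a : ℕ) : ex k n + a ≤ ex k (n + a) := by
  induction k with
  | zero => exact le_rfl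
  | succ k ih =>
    rw [ex_succ, ex_succ]
    refine le_trans ?_ (Nat.pow_le_pow_right two_pos ih)
    have h1 : 1 ≤ 2 ^ ex k n := Nat.one_le_two_pow
    rw [pow_add]
    nlinarith [Nat.mul_le_mul_left (2 ^ ex k n) a.lt_two_pow_self, Nat.mul_le_mul_right a h1]

theorem mul_ex (d k n : ℕ) : d * (ex k n + 1) ≤ ex k (d * (n + 1)) := by
  induction k with
  | zero => exact le_rfl
  | succ k ih =>
    rw [ex_succ, ex_succ]
    refine le_trans ?_ (Nat.pow_le_pow_right two_pos ih)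
    cases d with
    | zero => simp
    | succ d =>
      refine le_trans ?_ (Nat.pow_le_pow_right two_pos
        (show d + (ex k n + 1) ≤ (d + 1) * (ex k n + 1) by nlinarith))
      have h1 : 1 ≤ 2 ^ ex k n := Nat.one_le_two_pow
      rw [pow_add]
      exact Nat.mul_le_mul d.lt_two_pow_self (by rw [pow_succ]; omega)

theorem lg_ex (k : ℕ) {m w : ℕ} (h : m ≤ ex k w) : lg^[k] m ≤ w + k := by
  induction k generalizing m w with
  | zero => exact h
  | succ k ih =>
    rw [ex_succ] at h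
    have h1 : m < 2 ^ (ex k w + 1) := h.trans_lt (Nat.pow_lt_pow_right one_lt_two (by omega))
    exact (ih ((lg_le h1).trans (ex_add k w 1))).trans (by omega)

theorem ex_lg (k n : ℕ) : n ≤ ex k (lg^[k] n) := by
  induction k generalizing n with
  | zero => exact le_rfl
  | succ k ih => exact (lt_lg n).le.trans ((Nat.pow_le_pow_right two_pos (ih _)).trans_eq
      (ex_succ _ _).symm)

/-- The height of the towers. -/
class Lv where
  /-- The height. -/
  k : ℕ

/-- The time bounds. -/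
def qp [Lv] (c n : ℕ) : ℕ := ex (Lv.k + 1) ((lg^[Lv.k + 1] n + 2) ^ c)

theorem qp_mono [Lv] {c d m n : ℕ} (h1 : c ≤ d) (h2 : m ≤ n) : qp c m ≤ qp d n :=
  ex_mono _ ((Nat.pow_le_pow_left (Nat.add_le_add_right (lgi_mono _ h2) 2) c).trans
    (Nat.pow_le_pow_right (by omega) h1))

/-- The ranges. -/
def rg (j c n : ℕ) : ℕ := ex j ((Nat.log 2)^[j] n ^ c)

theorem rg_le (j c : ℕ) {K : ℕ} (h : j ≤ K) : ∃ d, ∀ n, rg j c n ≤ ex K ((lg^[K] n + 2) ^ d) := by
  induction K, h using Nat.le_induction with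
  | base => exact ⟨c, fun n => ex_mono _ (Nat.pow_le_pow_left ((log_le j n).trans (by omega)) c)⟩
  | succ K _ ih =>
    obtain ⟨d, hd⟩ := ih
    refine ⟨d + 1, fun n => (hd n).trans (ex_mono K ?_)⟩
    rw [Function.iterate_succ_apply' lg]
    generalize lg^[K] n = x
    have h1 : x + 2 ≤ 2 ^ (lg x + 2) := by
      have := lt_lg x
      rw [pow_add]
      omega
    refine (Nat.pow_le_pow_left h1 d).trans ?_
    rw [← pow_mul, pow_succ']
    exact Nat.pow_le_pow_right two_pos (Nat.mul_le_mul_left _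
      (d.lt_two_pow_self.le.trans (Nat.pow_le_pow_left (by omega) d)))

theorem poly_lg {t : ℕ → ℕ} (ht : Lib.Poly.IsPoly t) :
    ∃ d, ∀ m k, m < 2 ^ k → t m < 2 ^ (d * (k + 1)) := by
  obtain ⟨p, hp⟩ := ht
  simp only [hp]
  clear hp
  induction p using Polynomial.induction_on' with
  | add p q h1 h2 =>
    obtain ⟨a, h1⟩ := h1
    obtain ⟨b, h2⟩ := h2
    refine ⟨a + b + 1, fun m k h => ?_⟩
    have c1 := (h1 m k h).trans_le (Nat.pow_le_pow_right two_pos
      (show a * (k + 1) ≤ (a + b) * (k + 1) by nlinarith))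
    have c2 := (h2 m k h).trans_le (Nat.pow_le_pow_right two_pos
      (show b * (k + 1) ≤ (a + b) * (k + 1) by nlinarith))
    refine lt_of_lt_of_le ?_ (Nat.pow_le_pow_right two_pos
      (show (a + b) * (k + 1) + 1 ≤ (a + b + 1) * (k + 1) by nlinarith))
    rw [Polynomial.eval_add, pow_succ]
    omega
  | monomial e a =>
    refine ⟨a + e, fun m k h => ?_⟩
    rw [Polynomial.eval_monomial]
    refine (Nat.mul_lt_mul_of_lt_of_le a.lt_two_pow_self (Nat.pow_le_pow_left h.le e)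
      (by positivity)).trans_le ?_
    rw [← pow_mul, ← pow_add]
    exact Nat.pow_le_pow_right two_pos (by nlinarith)

theorem qp_close [Lv] (a b : ℕ) {t : ℕ → ℕ} (ht : Lib.Poly.IsPoly t) :
    ∃ c, ∀ n, qp a (t (2 * n + 1 + qp b n)) ≤ qp c n := by
  obtain ⟨d, hd⟩ := poly_lg ht
  refine ⟨(d + Lv.k + 3 + b + 3) * a, fun n => ex_mono _ ?_⟩
  rw [pow_mul]
  refine Nat.pow_le_pow_left ?_ a
  have h1 := ex_lg (Lv.k + 1) n
  unfold qp
  generalize lg^[Lv.k + 1] n = x at *
  have h2 : 2 * n + 1 + ex (Lv.k + 1) ((x + 2) ^ b) < 2 ^ (ex Lv.k (x + (x + 2) ^ b) + 3) := by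
    have c1 := ex_mono (Lv.k + 1) (Nat.le_add_right x ((x + 2) ^ b))
    have c2 := ex_mono (Lv.k + 1) (Nat.le_add_left ((x + 2) ^ b) x)
    have c3 : 1 ≤ 2 ^ ex Lv.k (x + (x + 2) ^ b) := Nat.one_le_two_pow
    rw [ex_succ _ (_ + _)] at c1 c2
    rw [pow_add 2 _ 3]
    omega
  have h3 := lg_ex (Lv.k + 1) ((hd _ _ h2).le.trans ((Nat.pow_le_pow_right two_pos
    ((Nat.mul_le_mul_left d (Nat.add_le_add_right (ex_add _ _ 3) 1)).trans
      (mul_ex _ _ _))).trans_eq (ex_succ _ _).symm))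
  have h4 : d + Lv.k + 3 ≤ (x + 2) ^ (d + Lv.k + 3) :=
    (d + Lv.k + 3).lt_two_pow_self.le.trans (Nat.pow_le_pow_left (by omega) _)
  have h5 : 1 ≤ (x + 2) ^ b := Nat.one_le_pow _ _ (by omega)
  have h6 : x + (x + 2) ^ b + 4 ≤ (x + 2) ^ b * (x + 2) ^ 3 := by
    generalize (x + 2) ^ b = y at *
    nlinarith [Nat.zero_le (x ^ 3 * y), Nat.zero_le (x ^ 2 * y), Nat.mul_le_mul_left x h5]
  rw [add_assoc _ b, pow_add _ _ (b + 3), pow_add _ b]
  nlinarith [Nat.mul_le_mul h4 h6, Nat.zero_le (Lv.k * (x + (x + 2) ^ b))]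

theorem pt_ex {α : Type} [Enc α] (j : ℕ) {f T : α → ℕ} (hf : PT f) (hT : PT T) :
    PT fun x => min (ex j (f x)) (T x) := by
  induction j with
  | zero => exact hf.min hT
  | succ j ih =>
    refine (PB.toUnary (PB.twoPow ih) hT).of_eq fun x => ?_
    rw [ex_succ]
    rcases le_total (ex j (f x)) (T x) with h | h
    · rw [min_eq_left h]
    · rw [min_eq_right h, min_eq_right (T x).lt_two_pow_self.le,
        min_eq_right ((T x).lt_two_pow_self.le.trans (Nat.pow_le_pow_right two_pos h))]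

theorem pt_iter {f : ℕ → ℕ} (hf : PT f) (j : ℕ) : PT f^[j] := by
  induction j with
  | zero => exact PT.id
  | succ j ih => exact ih.comp hf

theorem pt_log : PT fun n : Bin => Nat.log 2 n.val :=
  (PT.szf.sub (PT.const 1)).of_eq fun n => by rw [log_eq]; rfl

variable [Lv]

/-- Computable within the time bounds. -/
@[fun_prop] def QT {α β : Type} [Enc α] [Enc β] (f : α → β) : Prop :=
  ∃ (c : ℕ) (F : α × ℕ → β), PT F ∧ ∀ x t, qp c (sz x) ≤ t → F (x, t) = f x

variable {α β γ : Type} [Enc α] [Enc β] [Enc γ]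

namespace QT

theorem of_eq {f g : α → β} (hf : QT f) (h : ∀ a, f a = g a) : QT g :=
  (funext h : f = g) ▸ hf

@[fun_prop] theorem ofPT {f : α → β} (hf : PT f) : QT f :=
  ⟨0, fun p => f p.1, hf.comp PT.fst', fun _ _ _ => rfl⟩

@[fun_prop] theorem id : QT fun x : α => x := ofPT PT.id

@[fun_prop] theorem const (b : β) : QT fun _ : α => b := ofPT (PT.const b)

@[fun_prop] theorem comp {f : β → γ} {g : α → β} (hf : QT f) (hg : QT g) :
    QT fun x => f (g x) := by
  obtain ⟨a, F, a1, a2⟩ := hf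
  obtain ⟨b, G, b1, b2⟩ := hg
  obtain ⟨t, c1, c2⟩ := b1.size
  obtain ⟨c, hc⟩ := qp_close a b c1
  refine ⟨b + c, fun p => F (G p, p.2), by fun_prop, fun x s hs => ?_⟩
  have h1 := c2 (x, qp b (sz x))
  rw [b2 x _ le_rfl, sz_pair, sz_nat] at h1
  dsimp only
  rw [b2 x s ((qp_mono (by omega) le_rfl).trans hs), a2 _ s ((qp_mono le_rfl h1).trans
    ((hc _).trans ((qp_mono (by omega) le_rfl).trans hs)))]

@[fun_prop] theorem mk {f : α → β} {g : α → γ} (hf : QT f) (hg : QT g) :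
    QT fun x => (f x, g x) := by
  obtain ⟨a, F, a1, a2⟩ := hf
  obtain ⟨b, G, b1, b2⟩ := hg
  refine ⟨a + b, fun p => (F p, G p), a1.mk b1, fun x s hs => ?_⟩
  dsimp only
  rw [a2 x s ((qp_mono (by omega) le_rfl).trans hs), b2 x s ((qp_mono (by omega) le_rfl).trans hs)]

theorem fst' : QT fun p : α × β => p.1 := ofPT PT.fst'

theorem snd' : QT fun p : α × β => p.2 := ofPT PT.snd'

@[fun_prop] theorem fst {f : α → β × γ} (hf : QT f) : QT fun x => (f x).1 := fst'.comp hf

@[fun_prop] theorem snd {f : α → β × γ} (hf : QT f) : QT fun x => (f x).2 := snd'.comp hf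

theorem op {δ : Type} [Enc δ] {F : β → γ → δ} (h : PT fun p : β × γ => F p.1 p.2) {f : α → β}
    {g : α → γ} (hf : QT f) (hg : QT g) : QT fun x => F (f x) (g x) :=
  (ofPT h).comp (hf.mk hg)

@[fun_prop] theorem not {f : α → Bool} (hf : QT f) : QT fun x => !f x :=
  (ofPT PT.id.not).comp hf

@[fun_prop] theorem and {f g : α → Bool} (hf : QT f) (hg : QT g) : QT fun x => f x && g x :=
  op (F := fun a b => a && b) (by fun_prop) hf hg

@[fun_prop] theorem add {f g : α → ℕ} (hf : QT f) (hg : QT g) : QT fun x => f x + g x :=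
  op (F := fun a b => a + b) (by fun_prop) hf hg

@[fun_prop] theorem mul {f g : α → ℕ} (hf : QT f) (hg : QT g) : QT fun x => f x * g x :=
  op (F := fun a b => a * b) (by fun_prop) hf hg

@[fun_prop] theorem toSz {f : α → β} (hf : QT f) : QT fun x => sz (f x) := (ofPT PT.szf).comp hf

theorem ite {p : α → Prop} [∀ x, Decidable (p x)] {f g : α → β}
    (hp : QT fun x => decide (p x)) (hf : QT f) (hg : QT g) :
    QT fun x => if p x then f x else g x :=
  ((ofPT PT.sel).comp (hp.mk (hf.mk hg))).of_eq fun x => by by_cases h : p x <;> simp [h]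

theorem dnot {p : α → Prop} [∀ x, Decidable (p x)] [∀ x, Decidable (¬ p x)]
    (hp : QT fun x => decide (p x)) : QT fun x => decide (¬ p x) :=
  hp.not.of_eq fun _ => by simp

theorem dand {p q : α → Prop} [∀ x, Decidable (p x)] [∀ x, Decidable (q x)]
    [∀ x, Decidable (p x ∧ q x)] (hp : QT fun x => decide (p x))
    (hq : QT fun x => decide (q x)) : QT fun x => decide (p x ∧ q x) :=
  (hp.and hq).of_eq fun _ => by simp

theorem ofEx (j c : ℕ) {f : ℕ → ℕ} (hf : PT f) (h : ∀ n, ex j (f n) ≤ V.qp c n) :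
    QT fun n => ex j (f n) :=
  ⟨c, fun p => min (ex j (f p.1)) p.2, pt_ex j (hf.comp PT.fst') PT.snd',
    fun n t h1 => min_eq_left ((h n).trans (by simpa using h1))⟩

theorem qp (c : ℕ) {f : α → ℕ} (hf : QT f) : QT fun x => qp c (f x) :=
  comp (f := V.qp c) (ofEx _ c (PT.pow ((pt_iter (f := lg) (PT.toSz PT.id.toBin) _).add
    (PT.const 2)) c) fun _ => le_rfl) hf

theorem size {f : α → β} (hf : QT f) :
    ∃ b : ℕ → ℕ, QT b ∧ Monotone b ∧ ∀ a, sz (f a) ≤ b (sz a) := by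
  obtain ⟨c, F, a1, a2⟩ := hf
  obtain ⟨t, c1, c2⟩ := a1.size
  have := qp c (id (α := ℕ))
  refine ⟨fun n => t (2 * n + 1 + V.qp c n), (ofPT (PT.isPoly c1)).comp (by fun_prop),
    fun m n h => c1.mono (by have := qp_mono (le_refl c) h; omega), fun x => ?_⟩
  have h1 := c2 (x, V.qp c (sz x))
  rwa [a2 x _ le_rfl, sz_pair, sz_nat] at h1

theorem map {f : α → β → γ} {l : α → List β} (hf : QT fun p : α × β => f p.1 p.2) (hl : QT l) :
    QT fun x => (l x).map (f x) := by
  obtain ⟨c, F, a1, a2⟩ := hf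
  have h1 : PT fun p : α × List β × ℕ => p.2.1.map fun i => F ((p.1, i), p.2.2) := by fun_prop
  refine ((ofPT h1).comp (id.mk (hl.mk (qp c (f := fun x => 2 * sz x + 1 + sz (l x))
    (by fun_prop))))).of_eq fun x => List.map_congr_left fun i hi => a2 (x, i) _ (qp_mono le_rfl ?_)
  have : sz i ≤ sz (l x) := sz_le_of_mem hi
  rw [sz_pair]
  omega

end QT

/-- The same with the value written in binary. -/
@[fun_prop] def QB {α : Type} [Enc α] (f : α → ℕ) : Prop := QT fun x => Bin.mk (f x)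

namespace QB

theorem of_eq {f g : α → ℕ} (hf : QB f) (h : ∀ a, f a = g a) : QB g :=
  (funext h : f = g) ▸ hf

theorem ofPB {f : α → ℕ} (hf : PB f) : QB f := QT.ofPT hf

@[fun_prop] theorem const (c : ℕ) : QB fun _ : α => c := QT.const _

@[fun_prop] theorem comp {f : β → ℕ} {g : α → β} (hf : QB f) (hg : QT g) :
    QB fun x => f (g x) := QT.comp (f := fun y => Bin.mk (f y)) hf hg

@[fun_prop] theorem ofQT {f : α → ℕ} (hf : QT f) : QB f := (QT.ofPT PT.id.toBin).comp hf

@[fun_prop] theorem val {f : α → Bin} (hf : QT f) : QB fun x => (f x).val := hf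

@[fun_prop] theorem add {f g : α → ℕ} (hf : QB f) (hg : QB g) : QB fun x => f x + g x :=
  QT.op (F := Bin.add) (by fun_prop) hf hg

@[fun_prop] theorem sub {f g : α → ℕ} (hf : QB f) (hg : QB g) : QB fun x => f x - g x :=
  QT.op (F := Bin.sub) (by fun_prop) hf hg

@[fun_prop] theorem mul {f g : α → ℕ} (hf : QB f) (hg : QB g) : QB fun x => f x * g x :=
  QT.op (F := Bin.mul) (by fun_prop) hf hg

@[fun_prop] theorem div {f g : α → ℕ} (hf : QB f) (hg : QB g) : QB fun x => f x / g x :=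
  QT.op (F := Bin.div) (by fun_prop) hf hg

@[fun_prop] theorem mod {f g : α → ℕ} (hf : QB f) (hg : QB g) : QB fun x => f x % g x :=
  QT.op (F := Bin.mod) (by fun_prop) hf hg

@[fun_prop] theorem pow {f : α → ℕ} (hf : QB f) (k : ℕ) : QB fun x => f x ^ k :=
  (ofPB ((PB.val PT.id).pow k)).comp hf

@[fun_prop] theorem ite {p : α → Prop} [∀ x, Decidable (p x)] {f g : α → ℕ}
    (hp : QT fun x => decide (p x)) (hf : QB f) (hg : QB g) :
    QB fun x => if p x then f x else g x :=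
  (QT.ite hp hf hg).of_eq fun x => by
    by_cases h : p x <;> simp [h]

theorem lt {f g : α → ℕ} [∀ x, Decidable (f x < g x)] (hf : QB f) (hg : QB g) :
    QT fun x => decide (f x < g x) :=
  (QT.op (F := Bin.lt) (by fun_prop) hf hg).of_eq fun x => by simp [Bin.lt]

theorem eq {f g : α → ℕ} [∀ x, Decidable (f x = g x)] (hf : QB f) (hg : QB g) :
    QT fun x => decide (f x = g x) :=
  (QT.op (F := fun a b : Bin => decide (a = b)) (by fun_prop) hf hg).of_eq fun x => by simp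

theorem twoPow {f : α → ℕ} (hf : QT f) : QB fun x => 2 ^ f x := (ofPB (PB.twoPow PT.id)).comp hf

theorem app {f : α → ℕ → ℕ} (h : QB fun p : α × Bin => f p.1 p.2.val) {x : β → α} {i : β → ℕ}
    (hx : QT x) (hi : QB i) : QB fun y => f (x y) (i y) :=
  h.comp (g := fun y => (x y, Bin.mk (i y))) (hx.mk hi)

theorem appT {f : α → ℕ → γ} (h : QT fun p : α × Bin => f p.1 p.2.val) {x : β → α} {i : β → ℕ}
    (hx : QT x) (hi : QB i) : QT fun y => f (x y) (i y) :=
  h.comp (g := fun y => (x y, Bin.mk (i y))) (hx.mk hi)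

theorem bits {f : α → ℕ} (hf : QB f) : ∃ K : α → ℕ, QT K ∧ ∀ x, f x < 2 ^ K x :=
  ⟨fun x => sz (Bin.mk (f x)), QT.toSz hf, fun x => Bin.lt_two_pow ⟨f x⟩⟩

theorem powMod {b e p : α → ℕ} (hb : QB b) (he : QB e) (hp : QB p) :
    QB fun x => if p x = 0 then 0 else b x ^ e x % p x :=
  (ofPB (PB.powMod (b := fun q : Bin × Bin × Bin => q.1.val) (e := fun q => q.2.1.val)
    (p := fun q => q.2.2.val) (by fun_prop) (by fun_prop) (by fun_prop))).comp
    (QT.mk hb (QT.mk he hp))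

end QB

theorem qt_range {j : ℕ} (h : j ≤ Lv.k + 1) (c : ℕ) : QT (rg j c) := by
  obtain ⟨d, hd⟩ := rg_le j c h
  exact QT.ofEx j d (PT.pow (pt_iter (pt_log.comp PT.id.toBin) j) c) hd

theorem qb_range {j : ℕ} (h : j ≤ Lv.k + 1) (c : ℕ) : QB fun n : Bin => rg j c n.val := by
  cases j with
  | zero => exact QB.ofPB ((PB.val PT.id).pow c)
  | succ j =>
    exact (QB.twoPow ((qt_range (j := j) (by omega) c).comp (QT.ofPT pt_log))).of_eq fun n =>
      (ex_succ _ _).symm

open Pack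

omit [Lv] in
/-- Exact evaluation on explicit inputs. -/
theorem pt_val (e : Form) : ∀ {α : Type} [Enc α] {B : α → ℕ} {L R V : α → List ℕ}, PT B → PT L →
    PT R → (∀ i, PT fun x => (V x).getD i 0) → PT fun x => e.val (B x) (L x) (R x) (V x) := by
  induction e with
  | num c => intro α _ B L R V _ _ _ _; exact PT.const (c : ℚ)
  | var i => intro α _ B L R V _ _ _ hV; exact (hV i).natCastRat
  | multL i =>
    intro α _ B L R V _ hL hR hV
    exact U.pt_val (.multL i) hL hR hV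
  | multR i =>
    intro α _ B L R V _ hL hR hV
    exact U.pt_val (.multR i) hL hR hV
  | add a b ha hb => intro α _ B L R V hB hL hR hV; exact (ha hB hL hR hV).qadd (hb hB hL hR hV)
  | mul a b ha hb => intro α _ B L R V hB hL hR hV; exact (ha hB hL hR hV).qmul (hb hB hL hR hV)
  | inv a ha => intro α _ B L R V hB hL hR hV; exact (ha hB hL hR hV).qinv
  | floor a ha => intro α _ B L R V hB hL hR hV; exact pt_floor (ha hB hL hR hV)
  | sum a ha =>
    intro α _ B L R V hB hL hR hV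
    exact PT.qsum (PT.map (l := fun x => List.range (B x + 1))
      (f := fun x j => a.val (B x) (L x) (R x) (j :: V x))
      (ha (hB.comp PT.fst') (hL.comp PT.fst') (hR.comp PT.fst') (pt_cons_env hV)) (by fun_prop))
  | prod a ha =>
    intro α _ B L R V hB hL hR hV
    exact pt_qprod (PT.map (l := fun x => List.range (B x + 1))
      (f := fun x j => a.val (B x) (L x) (R x) (j :: V x))
      (ha (hB.comp PT.fst') (hL.comp PT.fst') (hR.comp PT.fst') (pt_cons_env hV)) (by fun_prop))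

/-- The test made by an expression on a pair with one more part. -/
def tst (c : ℕ) (e : Form) (N : ℕ) (L R : List ℕ) : Bool :=
  decide (e.val (rg Lv.k c (L.sum + N + 1 + L.sum))
    ((L.sum + N + 1) ::ₘ L) ((L.sum + N + 1) ::ₘ R) [] = 0)

/-- The test tells where the Möbius function vanishes. -/
def Zs (c : ℕ) (e : Form) (N : ℕ) : Prop :=
  ∀ (n : ℕ) (l r : n.Partition) (L R : List ℕ), l.parts = L → r.parts = R →
    Refines l.parts r.parts → ∀ μ, IsMobius μ → (μ l r = 0 ↔ tst c e N L R = true)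

/-- Sums over binary ranges are easy. -/
def Col : Prop :=
  ∀ (α : Type) [Enc α] (s : α → ℕ) (f : α → ℕ → ℕ), QB s →
    QB (fun p : α × Bin => f p.1 p.2.val) → QB fun x => ∑ i ∈ range (s x), f x i

variable {e : Form} {c N : ℕ}

theorem qt_tst (c : ℕ) (e : Form) (N : ℕ) : QT fun p : List ℕ × List ℕ => tst c e N p.1 p.2 := by
  have h1 := pt_val e (α := ℕ × List ℕ × List ℕ) (B := fun x => x.1)
    (L := fun x => (x.2.1.sum + N + 1) :: x.2.1) (R := fun x => (x.2.1.sum + N + 1) :: x.2.2)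
    (V := fun _ => []) (by fun_prop) (by fun_prop) (by fun_prop)
    fun i => (PT.const 0).of_eq fun _ => by simp
  exact (QT.ofPT (PT.deq h1 (PT.const 0))).comp (QT.mk ((qt_range (Nat.le_succ _) c).comp (QT.ofPT
    (f := fun p : List ℕ × List ℕ => p.1.sum + N + 1 + p.1.sum) (by fun_prop))) QT.id)

theorem eq_card' (h : Zs c e N) {R S : α × List Bool → Bool} (hR : PT R) (hS : PT S) {P : α → ℕ}
    (hP : PT P) : QT fun x =>
      decide ((cardL (P x) fun l => R (x, l)) = cardL (P x) fun l => S (x, l)) := by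
  let Q : α × List Bool → Bool := fun z =>
    bif z.2.tail.headD false then z.2.tail.tail.all fun β => !β
    else bif z.2.headD false then R (z.1, z.2.tail.tail) else S (z.1, z.2.tail.tail)
  have h1 : ∀ x, (cardL (P x + 1 + 1) fun l => l.headD false && Q (x, l)) =
      1 + cardL (P x) fun l => R (x, l) := fun x => by
    rw [cardL_succ, cardL_succ]
    simp only [Q, List.headD_cons, List.tail_cons, Bool.true_and, Bool.false_and, cond_true,
      cond_false, cardL_false, cardL_zeros, add_zero]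
  have h2 : ∀ x, (cardL (P x + 1 + 1) fun l => !l.headD false && Q (x, l)) =
      1 + cardL (P x) fun l => S (x, l) := fun x => by
    rw [cardL_succ, cardL_succ _ fun l => _ && Q (x, false :: l)]
    simp only [Q, List.headD_cons, List.tail_cons, Bool.true_and, Bool.false_and, cond_true,
      cond_false, cardL_false, cardL_zeros, Bool.not_true, Bool.not_false, zero_add]
  obtain ⟨lam, rho, d, a1, a2, -, a4⟩ := gap_verifier Q (by fun_prop)
    (fun x => P x + 1) (by fun_prop) fun x => by rw [h1]; omega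
  refine ((qt_tst c e N).comp (QT.ofPT (a1.mk a2))).of_eq fun x => ?_
  obtain ⟨c0, n, l, r, b1, b2, b3, b4⟩ := a4 x
  obtain ⟨μ, hμ⟩ := exists_mobius n
  have h4 := h n l r _ _ b1 b2 b3 μ hμ
  rw [b4 μ hμ, h1, h2] at h4
  rw [Bool.eq_iff_iff, ← h4, decide_eq_true_eq, mul_eq_zero]
  omega

theorem eq_card (h : Zs c e N) {R S : α × List Bool → Bool} (hR : QT R) (hS : QT S) {P : α → ℕ}
    (hP : QT P) : QT fun x =>
      decide ((cardL (P x) fun l => R (x, l)) = cardL (P x) fun l => S (x, l)) := by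
  obtain ⟨a, F, a1, a2⟩ := hR
  obtain ⟨b, G, b1, b2⟩ := hS
  have h1 := eq_card' h (α := α × ℕ × ℕ) (R := fun z => F ((z.1.1, z.2), z.1.2.2))
    (S := fun z => G ((z.1.1, z.2), z.1.2.2)) (P := fun y => y.2.1) (by fun_prop) (by fun_prop)
    (by fun_prop)
  refine (h1.comp (QT.id.mk (hP.mk (QT.qp (a + b) (f := fun x => 2 * sz x + 1 + P x * 3)
    (by fun_prop))))).of_eq fun x => ?_
  have h2 : ∀ w : Fin (P x) → Bool, sz (x, List.ofFn w) ≤ 2 * sz x + 1 + P x * 3 := fun w => by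
    have := sz_list_le (List.ofFn w) 1 fun _ _ => le_rfl
    rw [List.length_ofFn] at this
    rw [sz_pair]
    omega
  simp only [cardL, fun w => a2 _ _ (qp_mono (Nat.le_add_right a b) (h2 w)),
    fun w => b2 _ _ (qp_mono (Nat.le_add_left b a) (h2 w))]

theorem eq_cnt (h : Zs c e N) {φ ψ : α → ℕ → Bool} (hφ : QT fun p : α × Bin => φ p.1 p.2.val)
    (hψ : QT fun p : α × Bin => ψ p.1 p.2.val) {K : α → ℕ} (hK : QT K) :
    QT fun x => decide (cnt (2 ^ K x) (φ x) = cnt (2 ^ K x) (ψ x)) := by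
  have hb : QB fun p : α × List Bool => bv p.2 := QT.ofPT (PT.ofBits PT.snd')
  refine (eq_card h (QB.appT hφ QT.fst' hb) (QB.appT hψ QT.fst' hb) hK).of_eq fun x => ?_
  simp only [card_bv]

theorem pb_cnt (h : Zs c e N) {s : α → ℕ} {φ : α → ℕ → Bool} (hs : QB s)
    (hφ : QT fun p : α × Bin => φ p.1 p.2.val) : QB fun x => cnt (s x) (φ x) := by
  obtain ⟨K, hK, hK'⟩ := hs.bits
  have hf : ∀ x, cnt (s x) (φ x) < 2 ^ K x := fun x => (cnt_le _ _).trans_lt (hK' x)
  have h1 : QT fun p : α × Bin => decide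
      ((cnt (2 ^ K p.1) fun i => decide (i < s p.1) && φ p.1 i) =
        cnt (2 ^ K p.1) fun i => decide (i < p.2.val) && true) :=
    eq_cnt h (QT.and (QB.lt (by fun_prop) (by fun_prop)) (QB.appT hφ (by fun_prop) (by fun_prop)))
      (QT.and (QB.lt (by fun_prop) (by fun_prop)) (QT.const _)) (by fun_prop)
  have h2 : QT fun p : α × Bin =>
      decide (p.2.val < 2 ^ K p.1) && decide (cnt (s p.1) (φ p.1) = p.2.val) := by
    refine (QT.and (QB.lt (f := fun p : α × Bin => p.2.val) (by fun_prop)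
      (QB.twoPow (hK.comp QT.fst'))) h1).of_eq fun p => ?_
    by_cases hp : p.2.val < 2 ^ K p.1
    · rw [cnt_lt (hK' _).le, cnt_lt hp.le, cnt_true]
    · simp [hp]
  have h3 : QT fun p : α × ℕ => decide ((cnt (2 ^ K p.1) fun y =>
      (decide (y < 2 ^ K p.1) && decide (cnt (s p.1) (φ p.1) = y)) &&
        decide (y / 2 ^ p.2 % 2 = 1)) = cnt (2 ^ K p.1) fun _ => false) :=
    eq_cnt h (QT.and (QB.appT (f := fun x y => decide (y < 2 ^ K x) &&
      decide (cnt (s x) (φ x) = y)) h2 (by fun_prop) (by fun_prop))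
      (QB.eq (QB.mod (QB.div (by fun_prop) (QB.twoPow (by fun_prop))) (QB.const 2)) (QB.const 1)))
      (QT.const _) (by fun_prop)
  have h4 : QT fun p : α × ℕ => decide (cnt (s p.1) (φ p.1) / 2 ^ p.2 % 2 = 1) := by
    refine h3.not.of_eq fun p => ?_
    simp only [Bool.and_assoc]
    rw [cnt_lt le_rfl, cnt_one (hf _), show (cnt (2 ^ K p.1) fun _ => false) = 0 by simp [cnt]]
    by_cases hp : cnt (s p.1) (φ p.1) / 2 ^ p.2 % 2 = 1 <;> simp [hp]
  exact ((QT.ofPT (PT.ofBits PT.id)).comp (QT.map (l := fun x => List.range (K x))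
    (f := fun x j => decide (cnt (s x) (φ x) / 2 ^ j % 2 = 1)) h4
    ((QT.ofPT (PT.range PT.id)).comp hK))).of_eq fun x =>
      congrArg Bin.mk (bv_bits _ _ (hf x))

theorem col_of_zs (h : Zs c e N) : Col := by
  intro α _ s f hs hf
  obtain ⟨t, ht, hm, ht'⟩ := QT.size hf
  have hB : QB fun x => 2 ^ t (2 * sz x + 1 + sz (Bin.mk (s x))) :=
    QB.twoPow (ht.comp (QT.add (by fun_prop) (QT.toSz hs)))
  refine (pb_cnt h (hs.mul hB) (φ := fun x u => decide
    (u % 2 ^ t (2 * sz x + 1 + sz (Bin.mk (s x))) <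
      f x (u / 2 ^ t (2 * sz x + 1 + sz (Bin.mk (s x))))))
    (QB.lt (QB.mod (by fun_prop) (hB.comp QT.fst'))
      (QB.app hf QT.fst' (QB.div (by fun_prop) (hB.comp QT.fst'))))).of_eq fun x => ?_
  rw [cnt, sum_grid _ _ fun i j => if decide (j < f x i) = true then 1 else 0]
  refine sum_congr rfl fun i hi => ?_
  have h1 : f x i ≤ 2 ^ t (2 * sz x + 1 + sz (Bin.mk (s x))) := by
    refine (Bin.lt_two_pow ⟨f x i⟩).le.trans (Nat.pow_le_pow_right two_pos
      ((ht' (x, ⟨i⟩)).trans (hm ?_)))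
    have := Bin.sz_mono (mem_range.1 hi).le
    rw [sz_pair]
    omega
  have := cnt_lt h1 fun _ => true
  rw [cnt_true] at this
  simpa [cnt] using this

theorem Col.sum (H : Col) {s : α → ℕ} {f : α → ℕ → ℕ} (hs : QB s)
    (hf : QB fun p : α × Bin => f p.1 p.2.val) : QB fun x => ∑ i ∈ range (s x), f x i :=
  H α s f hs hf

theorem Col.cnt (H : Col) {s : α → ℕ} {φ : α → ℕ → Bool} (hs : QB s)
    (hφ : QT fun p : α × Bin => φ p.1 p.2.val) : QB fun x => cnt (s x) (φ x) :=
  H.sum (f := fun x i => if φ x i = true then 1 else 0) hs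
    (QB.ite (hφ.of_eq fun _ => by simp) (QB.const 1) (QB.const 0))

theorem Col.dl (H : Col) {p g b : α → ℕ} (hp : QB p) (hg : QB g) (hb : QB b) :
    QB fun x => dl (p x) (g x) (b x) :=
  H.cnt hp (QB.eq (H.cnt (by fun_prop) (QB.eq
    (QB.powMod (by fun_prop) (by fun_prop) (by fun_prop)) (by fun_prop))) (QB.const 0))

open Classical in
theorem Col.gen (H : Col) {p g : α → ℕ} (hp : QB p) (hg : QB g) :
    QT fun x => decide (Gen (p x) (g x)) := by
  have h1 : QB fun x => U.cnt (p x) fun b => !decide (b = 0) && decide ((U.cnt (p x) fun i =>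
      decide ((if p x = 0 then 0 else g x ^ i % p x) = b)) = 0) :=
    H.cnt hp (QT.and (QB.eq (by fun_prop) (QB.const 0)).not (QB.eq (H.cnt (by fun_prop) (QB.eq
      (QB.powMod (by fun_prop) (by fun_prop) (by fun_prop)) (by fun_prop))) (QB.const 0)))
  refine (QT.and (QB.lt (QB.const 1) hp) (QB.eq h1 (QB.const 0))).of_eq fun x => ?_
  rw [Bool.eq_iff_iff, decide_eq_true_eq]
  simp only [Gen, cnt_eq_zero, Bool.and_eq_true, decide_eq_true_eq]
  refine and_congr_right fun h => forall₂_congr fun b _ => ?_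
  by_cases hb : b = 0 <;> simp [hb, show p x ≠ 0 by omega]

/-- Bounded, and computable modulo every modulus with a generator. -/
def Good (f : α → ℤ) : Prop :=
  (∃ S : α → ℕ, QB S ∧ ∀ x, (f x).natAbs ≤ 2 ^ S x) ∧
    ∃ F : α × Bin × Bin → ℕ, QB F ∧ ∀ x p g, Gen p g → (F (x, ⟨p⟩, ⟨g⟩) : ZMod p) = f x

namespace Good

theorem of_eq {f g : α → ℤ} (hf : Good f) (h : ∀ a, f a = g a) : Good g :=
  (funext h : f = g) ▸ hf

theorem ofQB {f : α → ℕ} (hf : QB f) : Good fun x => (f x : ℤ) :=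
  ⟨⟨f, hf, fun x => (f x).lt_two_pow_self.le⟩, fun y => f y.1, by fun_prop, fun _ _ _ _ => by simp⟩

theorem const (c : ℤ) : Good fun _ : α => c := by
  refine ⟨⟨fun _ => c.natAbs, QB.const _, fun _ => c.natAbs.lt_two_pow_self.le⟩,
    fun y => c.toNat + (y.2.1.val - 1) * (-c).toNat, by fun_prop, fun _ p _ h => ?_⟩
  have h1 : ((p - 1 : ℕ) : ZMod p) = -1 := by
    rw [Nat.cast_sub h.1.le]
    simp
  conv_rhs => rw [← Int.toNat_sub_toNat_neg c]
  simp only [Nat.cast_add, Nat.cast_mul, h1, Int.cast_sub, Int.cast_natCast]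
  ring

theorem add {f g : α → ℤ} (hf : Good f) (hg : Good g) : Good fun x => f x + g x := by
  obtain ⟨⟨S, a1, a2⟩, F, a3, a4⟩ := hf
  obtain ⟨⟨T, b1, b2⟩, G, b3, b4⟩ := hg
  refine ⟨⟨fun x => S x + T x + 1, by fun_prop, fun x => (Int.natAbs_add_le _ _).trans ?_⟩,
    fun y => F y + G y, by fun_prop, fun x p g h => by simp [a4 x p g h, b4 x p g h]⟩
  have h1 := (a2 x).trans (Nat.pow_le_pow_right two_pos (Nat.le_add_right (S x) (T x)))
  have h2 := (b2 x).trans (Nat.pow_le_pow_right two_pos (Nat.le_add_left (T x) (S x)))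
  rw [pow_succ]
  omega

theorem mul {f g : α → ℤ} (hf : Good f) (hg : Good g) : Good fun x => f x * g x := by
  obtain ⟨⟨S, a1, a2⟩, F, a3, a4⟩ := hf
  obtain ⟨⟨T, b1, b2⟩, G, b3, b4⟩ := hg
  refine ⟨⟨fun x => S x + T x, by fun_prop, fun x => ?_⟩,
    fun y => F y * G y, by fun_prop, fun x p g h => by simp [a4 x p g h, b4 x p g h]⟩
  rw [Int.natAbs_mul, pow_add]
  exact Nat.mul_le_mul (a2 x) (b2 x)

theorem ite {c : α → Prop} [∀ x, Decidable (c x)] {f g : α → ℤ} (hc : QT fun x => decide (c x))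
    (hf : Good f) (hg : Good g) : Good fun x => if c x then f x else g x := by
  obtain ⟨⟨S, a1, a2⟩, F, a3, a4⟩ := hf
  obtain ⟨⟨T, b1, b2⟩, G, b3, b4⟩ := hg
  refine ⟨⟨fun x => if c x then S x else T x, QB.ite hc a1 b1, fun x => ?_⟩,
    fun y => if c y.1 then F y else G y, QB.ite (hc.comp QT.fst') a3 b3, fun x p g h => ?_⟩
  · by_cases h : c x <;> simp [h, a2, b2]
  · by_cases h' : c x <;> simp [h', a4 x p g h, b4 x p g h]

theorem comp {f : β → ℤ} {g : α → β} (hf : Good f) (hg : QT g) : Good fun x => f (g x) := by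
  obtain ⟨⟨S, a1, a2⟩, F, a3, a4⟩ := hf
  exact ⟨⟨fun x => S (g x), by fun_prop, fun x => a2 _⟩, fun y => F (g y.1, y.2), by fun_prop,
    fun x p g h => a4 _ p g h⟩

theorem sum (H : Col) {s : α → ℕ} {f : α → ℕ → ℤ} (hs : QB s)
    (hf : Good fun p : α × Bin => f p.1 p.2.val) : Good fun x => ∑ i ∈ range (s x), f x i := by
  obtain ⟨⟨S, a1, a2⟩, F, a3, a4⟩ := hf
  refine ⟨⟨fun x => s x + ∑ i ∈ range (s x), S (x, ⟨i⟩), hs.add (H.sum hs a1), fun x => ?_⟩,
    fun y => ∑ i ∈ range (s y.1), F ((y.1, ⟨i⟩), y.2), H.sum (by fun_prop)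
      (a3.comp (g := fun q : (α × Bin × Bin) × Bin => ((q.1.1, q.2), q.1.2)) (by fun_prop)),
    fun x p g h => by simp [a4 _ p g h]⟩
  refine (Int.natAbs_sum_le _ _).trans ((sum_le_card_nsmul _ _
    (2 ^ ∑ i ∈ range (s x), S (x, ⟨i⟩)) fun i hi => (a2 (x, ⟨i⟩)).trans
      (Nat.pow_le_pow_right two_pos (single_le_sum (f := fun i => S (x, ⟨i⟩))
        (fun _ _ => Nat.zero_le _) hi))).trans ?_)
  rw [card_range, pow_add]
  exact Nat.mul_le_mul_right _ (s x).lt_two_pow_self.le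

theorem prod (H : Col) {s : α → ℕ} {f : α → ℕ → ℤ} (hs : QB s)
    (hf : Good fun p : α × Bin => f p.1 p.2.val) : Good fun x => ∏ i ∈ range (s x), f x i := by
  obtain ⟨⟨S, a1, a2⟩, F, a3, a4⟩ := hf
  have h1 : QB fun q : (α × Bin × Bin) × Bin => F ((q.1.1, q.2), q.1.2) % q.1.2.1.val := by
    fun_prop
  refine ⟨⟨fun x => ∑ i ∈ range (s x), S (x, ⟨i⟩), H.sum hs a1, fun x => ?_⟩,
    fun y => if (cnt (s y.1) fun i => decide (F ((y.1, ⟨i⟩), y.2) % y.2.1.val = 0)) = 0 then
      (if y.2.1.val = 0 then 0 else y.2.2.val ^ (∑ i ∈ range (s y.1),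
        dl y.2.1.val y.2.2.val (F ((y.1, ⟨i⟩), y.2) % y.2.1.val)) % y.2.1.val) else 0,
    QB.ite (QB.eq (H.cnt (by fun_prop) (QB.eq h1 (QB.const 0))) (QB.const 0))
      (QB.powMod (by fun_prop) (H.sum (by fun_prop) (H.dl (by fun_prop) (by fun_prop) h1))
        (by fun_prop)) (QB.const 0), fun x p g h => ?_⟩
  · rw [← prod_pow_eq_pow_sum]
    exact (map_prod Int.natAbsHom _ _).trans_le (prod_le_prod' fun i _ => a2 (x, ⟨i⟩))
  have hp : p ≠ 0 := by have := h.1; omega
  dsimp only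
  rw [Int.cast_prod]
  split_ifs with h2
  · rw [ZMod.natCast_mod, Nat.cast_pow, ← prod_pow_eq_pow_sum]
    refine prod_congr rfl fun i hi => ?_
    have h3 := dl_spec h (Nat.mod_lt (F ((x, ⟨i⟩), ⟨p⟩, ⟨g⟩)) (Nat.pos_of_ne_zero hp))
      (by simpa using cnt_eq_zero.1 h2 i (mem_range.1 hi))
    rw [← a4 (x, ⟨i⟩) p g h, ← Nat.cast_pow, ZMod.natCast_eq_natCast_iff', h3]
  · rw [cnt_eq_zero] at h2
    push Not at h2
    obtain ⟨i, hi, h3⟩ := h2
    refine Nat.cast_zero.trans (prod_eq_zero (mem_range.2 hi) ?_).symm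
    rw [← a4 (x, ⟨i⟩) p g h, ZMod.natCast_eq_zero_iff]
    exact Nat.dvd_of_mod_eq_zero (by simpa using h3)

open Classical in
theorem zero (H : Col) {f : α → ℤ} (hf : Good f) : QT fun x => decide (f x = 0) := by
  obtain ⟨⟨S, a1, a2⟩, F, a3, a4⟩ := hf
  obtain ⟨j, b1, b2⟩ := a1.bits
  have hB : QB fun x => 2 ^ (2 * j x + 2) + 1 := (QB.twoPow (by fun_prop)).add (QB.const 1)
  have h1 : QB fun x => ∑ p ∈ range (2 ^ (2 * j x + 2) + 1), cnt p fun g =>
      decide (Gen p g) && !decide (F (x, ⟨p⟩, ⟨g⟩) % p = 0) :=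
    H.sum hB (H.cnt (by fun_prop) (QT.and (H.gen (by fun_prop) (by fun_prop)) (QB.eq
      (QB.mod (a3.comp (g := fun q : (α × Bin) × Bin => (q.1.1, q.1.2, q.2)) (by fun_prop))
        (by fun_prop)) (QB.const 0)).not))
  refine (QB.eq h1 (QB.const 0)).of_eq fun x => ?_
  rw [decide_eq_decide, sum_eq_zero_iff]
  simp only [cnt_eq_zero, Bool.and_eq_false_imp, decide_eq_true_eq, Bool.not_eq_eq_eq_not,
    Bool.not_false, mem_range]
  constructor
  · intro h
    by_contra h0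
    obtain ⟨p, c1, c2, c3⟩ := exists_prime (Int.natAbs_ne_zero.2 h0) (a2 x) (b2 x)
    obtain ⟨g, d1, d2⟩ := exists_gen c2
    have := (ZMod.natCast_eq_zero_iff _ _).2
      (Nat.dvd_of_mod_eq_zero (h p (by omega) g d1 d2))
    rw [a4 x p g d2, ZMod.intCast_zmod_eq_zero_iff_dvd] at this
    exact c3 (Int.natCast_dvd.1 this)
  · intro h p _ g _ hg
    have := a4 x p g hg
    rw [h, Int.cast_zero, ZMod.natCast_eq_zero_iff] at this
    exact Nat.mod_eq_zero_of_dvd this

end Good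

theorem Col.least (H : Col) {s : α → ℕ} {φ : α → ℕ → Bool} (hs : QB s)
    (hφ : QT fun p : α × Bin => φ p.1 p.2.val) : QB fun x => least (s x) (φ x) :=
  H.cnt hs (QB.eq (H.cnt (φ := fun p : α × Bin => φ p.1) (by fun_prop)
    (hφ.comp (g := fun q : (α × Bin) × Bin => (q.1.1, q.2)) (by fun_prop))) (QB.const 0))

theorem Col.prime (H : Col) {p : α → ℕ} (hp : QB p) : QT fun x => decide (p x).Prime := by
  have h1 : QB fun x => U.cnt (p x) fun m => decide (p x % m = 0) && !decide (m = 1) :=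
    H.cnt hp (QT.and (QB.eq (by fun_prop) (QB.const 0)) (QB.eq (by fun_prop) (QB.const 1)).not)
  refine (QT.and (QB.lt (QB.const 1) hp) (QB.eq h1 (QB.const 0))).of_eq fun x => ?_
  rw [Bool.eq_iff_iff, decide_eq_true_eq, Nat.prime_def_lt]
  simp [cnt_eq_zero, Nat.dvd_iff_mod_eq_zero, Nat.succ_le_iff]

open Classical in
theorem Good.res (H : Col) {f : α → ℤ} (hf : Good f) : ∃ R : α → ℕ → ℕ,
    (QB fun q : α × Bin => R q.1 q.2.val) ∧ ∀ x p, p.Prime → (R x p : ZMod p) = f x := by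
  obtain ⟨-, F, a3, a4⟩ := hf
  refine ⟨fun x p => F (x, ⟨p⟩, ⟨least p fun g => decide (Gen p g)⟩), a3.comp (QT.fst'.mk
    (QT.snd'.mk (H.least (QB.val QT.snd') (H.gen (by fun_prop) (by fun_prop))))),
    fun x p hp => a4 x p _ ?_⟩
  obtain ⟨g, h1, h2⟩ := exists_gen hp
  exact of_decide_eq_true (least_spec (φ := fun g => decide (Gen p g))
    ⟨g, h1, decide_eq_true h2⟩).1

theorem Good.pos (H : Col) {f : α → ℤ} (hf : Good f) : QT fun x => decide (0 < f x) := by
  obtain ⟨R, a1, a2⟩ := hf.res H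
  obtain ⟨⟨S, s1, s2⟩, -⟩ := hf
  obtain ⟨j, b1, b2⟩ := (s1.add (QB.const 3)).bits
  obtain ⟨B, hB, hB'⟩ : ∃ B : α → ℕ, QB B ∧ ∀ x, 8 * (f x).natAbs < primorial (B x) :=
    ⟨fun x => 2 ^ (2 * j x + 2), QB.twoPow (by fun_prop), fun x => by
      have h1 := lt_primorial (b2 x)
      have := s2 x
      rw [pow_add 2 (S x)] at h1
      dsimp only
      omega⟩
  have hc : Good fun q : α × Bin => (cof (B q.1) q.2.val : ℤ) :=
    (Good.prod H (s := fun q : α × Bin => B q.1 + 1)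
      (f := fun q r => if r.Prime ∧ r ≠ q.2.val then (r : ℤ) else 1) (by fun_prop)
      (Good.ite (QT.dand (H.prime (by fun_prop)) (QT.dnot (QB.eq (by fun_prop) (by fun_prop))))
        (Good.ofQB (by fun_prop)) (Good.const 1))).of_eq fun q => by simp [cof]
  obtain ⟨C, c1, c2⟩ := hc.res H
  have c3 : QB fun q : α × Bin => C q q.2.val := QB.app c1 QT.id (by fun_prop)
  have c4 : QB fun q : α × Bin =>
      least q.2.val fun i => decide (i * C q q.2.val % q.2.val = 1) :=
    H.least (by fun_prop) (QB.eq (QB.mod (QB.mul (by fun_prop) (c3.comp QT.fst')) (by fun_prop))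
      (QB.const 1))
  obtain ⟨a, d1, d2⟩ : ∃ a : α → ℕ → ℕ → ℕ,
      (QB fun q : (α × Bin) × Bin => a q.1.1 q.1.2.val q.2.val) ∧ ∀ x k p, p.Prime →
        (a x k p : ZMod p) * cof (B x) p = (2 ^ k * f x : ℤ) := by
    refine ⟨fun x k p => (if p = 0 then 0 else 2 ^ k % p) * R x p *
      least p fun i => decide (i * C (x, ⟨p⟩) p % p = 1),
      ((QB.powMod (QB.const 2) (by fun_prop) (by fun_prop)).mul
        (QB.app a1 (by fun_prop) (by fun_prop))).mul
        (c4.comp (g := fun q : (α × Bin) × Bin => (q.1.1, q.2)) (by fun_prop)),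
      fun x k p hp => ?_⟩
    have : Fact p.Prime := ⟨hp⟩
    have e : (C (x, ⟨p⟩) p : ZMod p) = cof (B x) p := (c2 _ p hp).trans (Int.cast_natCast _)
    have e1 : ∀ i : ℕ, i * C (x, ⟨p⟩) p % p = 1 ↔ (i : ZMod p) * cof (B x) p = 1 := fun i => by
      rw [← e, ← Nat.cast_mul, ← Nat.cast_one (R := ZMod p), ZMod.natCast_eq_natCast_iff',
        Nat.mod_eq_of_lt hp.one_lt]
    have e2 := (e1 _).1 (of_decide_eq_true (least_spec
      (φ := fun i => decide (i * C (x, ⟨p⟩) p % p = 1)) ⟨((cof (B x) p : ZMod p)⁻¹).val,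
        ZMod.val_lt _, decide_eq_true ((e1 _).2 (by
          rw [ZMod.natCast_zmod_val, inv_mul_cancel₀ (cof_ne hp)]))⟩).1)
    dsimp only
    rw [if_neg hp.ne_zero, Nat.cast_mul, mul_assoc, e2, Nat.cast_mul, a2 x p hp]
    simp
  have d3 : QB fun q : α × Bin => frac (B q.1) (a q.1 q.2.val) :=
    QB.mod (H.sum (by fun_prop) (QB.ite (H.prime (by fun_prop))
      (QB.div (d1.mul (by fun_prop)) (by fun_prop)) (QB.const 0))) (by fun_prop)
  have le : ∀ {γ : Type} [Enc γ] {u v : γ → ℕ}, QB u → QB v → QT fun x => decide (u x ≤ v x) :=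
    fun hu hv => (QB.lt hv hu).not.of_eq fun _ => by
      rw [← decide_not, decide_eq_decide, not_lt]
  have d4 := QB.app (f := fun x k => frac (B x) (a x k)) d3 QT.id (H.least
    (s := fun x => 2 * B x + 1) (φ := fun x k => decide (8 * (B x + 1) ≤ frac (B x) (a x k) ∧
      frac (B x) (a x k) < 56 * (B x + 1))) (by fun_prop)
    (QT.dand (le (by fun_prop) d3) (QB.lt d3 (by fun_prop))))
  exact (QT.dand (le (u := fun x => 8 * (B x + 1)) (by fun_prop) d4)
    (QB.lt (g := fun x => 32 * (B x + 1)) d4 (by fun_prop))).of_eq fun x =>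
      decide_eq_decide.2 (sign_spec (hB' x) (fun k p _ hp => d2 x k p hp) rfl)

theorem Good.sub {f g : α → ℤ} (hf : Good f) (hg : Good g) : Good fun x => f x - g x :=
  (hf.add ((Good.const (-1)).mul hg)).of_eq fun _ => by ring

theorem Good.twoPow (H : Col) {s : α → ℕ} (hs : QB s) : Good fun x => (2 : ℤ) ^ s x :=
  (Good.prod H (f := fun _ _ => 2) hs (Good.const 2)).of_eq fun _ => by simp

theorem Good.lift {f : α → ℤ} (hf : Good f) : Good fun p : α × Bin => f p.1 := hf.comp QT.fst'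

theorem small_div (H : Col) {T Y : α → ℤ} {K : α → ℕ} (hT : Good T) (hY : Good Y) (hK : QB K)
    (h : ∀ x, 0 < Y x ∧ 0 ≤ T x ∧ T x < K x * Y x) : Good fun x => T x / Y x := by
  refine (Good.ofQB (H.cnt (φ := fun x i => !decide (0 < ((i : ℤ) + 1) * Y x - T x)) hK
    (((((Good.ofQB (QB.val QT.snd')).add (Good.const 1)).mul hY.lift).sub hT.lift).pos H).not)).of_eq
    fun x => ?_
  obtain ⟨h1, h2, h3⟩ := h x
  have h4 := Int.ediv_nonneg h2 h1.le
  have h5 := (Int.ediv_lt_iff_lt_mul h1).2 h3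
  have h6 := cnt_lt (show (T x / Y x).toNat ≤ K x by omega) fun _ => true
  rw [cnt_true] at h6
  rw [← Int.toNat_of_nonneg h4, ← h6]
  refine congrArg _ (congrArg _ (funext fun i => ?_))
  have := Int.le_ediv_iff_mul_le (a := i + 1) (b := T x) h1
  rw [Bool.eq_iff_iff]
  simp only [Bool.not_eq_true', decide_eq_false_iff_not, Bool.and_true, decide_eq_true_eq]
  omega

theorem good_prodP (H : Col) {P : α → ℕ → Bool} {B : α → ℕ} (hB : QB B)
    (hP : QT fun p : α × Bin => P p.1 p.2.val) : Good fun x => (prodP (P x) (B x) : ℤ) :=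
  (Good.prod H (s := fun x => B x + 1) (f := fun x q => if P x q = true then (q : ℤ) else 1)
    (by fun_prop) (Good.ite (hP.of_eq fun _ => by simp) (Good.ofQB (by fun_prop))
      (Good.const 1))).of_eq fun x => by simp [prodP, prod_filter]

theorem Col.inv (H : Col) {C : α → ℕ → ℕ} (hC : QB fun q : α × Bin => C q.1 q.2.val) :
    ∃ I : α → ℕ → ℕ, (QB fun q : α × Bin => I q.1 q.2.val) ∧ ∀ x p, p.Prime →
      (C x p : ZMod p) ≠ 0 → (I x p : ZMod p) * C x p = 1 := by
  refine ⟨fun x p => U.least p fun i => decide (i * C x p % p = 1), H.least (by fun_prop)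
    (QB.eq (QB.mod (QB.mul (by fun_prop) (hC.comp QT.fst')) (by fun_prop)) (QB.const 1)),
    fun x p hp h0 => ?_⟩
  have : Fact p.Prime := ⟨hp⟩
  have e1 : ∀ i : ℕ, i * C x p % p = 1 ↔ (i : ZMod p) * C x p = 1 := fun i => by
    rw [← Nat.cast_mul, ← Nat.cast_one (R := ZMod p), ZMod.natCast_eq_natCast_iff',
      Nat.mod_eq_of_lt hp.one_lt]
  exact (e1 _).1 (of_decide_eq_true (least_spec (φ := fun i => decide (i * C x p % p = 1))
    ⟨((C x p : ZMod p)⁻¹).val, ZMod.val_lt _, decide_eq_true ((e1 _).2 (by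
      rw [ZMod.natCast_zmod_val, inv_mul_cancel₀ h0]))⟩).1)

theorem good_rem (H : Col) {P : α → ℕ → Bool} {B : α → ℕ} (hB : QB B)
    (hP : QT fun p : α × Bin => P p.1 p.2.val) (h1 : ∀ x q, P x q = true → q.Prime) {X : α → ℤ}
    {R : α → ℕ → ℕ} (hR : QB fun p : α × Bin => R p.1 p.2.val)
    (h2 : ∀ x p, P x p = true → (R x p : ZMod p) = X x) :
    Good fun x => X x % prodP (P x) (B x) := by
  have hc : Good fun q : α × Bin =>
      (prodP (fun r => P q.1 r && !decide (r = q.2.val)) (B q.1) : ℤ) :=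
    good_prodP H (by fun_prop) (QT.and (hP.comp (g := fun q : (α × Bin) × Bin => (q.1.1, q.2))
      (by fun_prop)) (QB.eq (by fun_prop) (by fun_prop)).not)
  obtain ⟨C, c1, c2⟩ := hc.res H
  obtain ⟨I, c3, c4⟩ := H.inv (C := fun x p => C (x, ⟨p⟩) p) (QB.app c1 QT.id (by fun_prop))
  have hM := good_prodP H hB hP
  have hT : Good fun x => ∑ p ∈ range (B x + 1), if P x p = true then
      ((R x p * I x p % p : ℕ) : ℤ) * prodP (fun r => P x r && !decide (r = p)) (B x) else 0 :=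
    Good.sum H (by fun_prop) (Good.ite (hP.of_eq fun _ => by simp)
      ((Good.ofQB ((hR.mul c3).mod (by fun_prop))).mul hc) (Good.const 0))
  have e : ∀ x, ∀ p ∈ range (B x + 1), P x p = true →
      p * prodP (fun r => P x r && !decide (r = p)) (B x) = prodP (P x) (B x) := fun x p hp h => by
    rw [prodP, filter_ne]
    exact mul_prod_erase _ (fun q => q) (mem_filter.2 ⟨hp, h⟩)
  refine (hT.sub (hM.mul (small_div H (K := fun x => B x + 2) hT hM (by fun_prop) fun x =>
    ⟨by exact_mod_cast prodP_pos (h1 x) _, sum_nonneg fun p _ => by positivity, ?_⟩))).of_eq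
    fun x => ?_
  · have h0 := prodP_pos (h1 x) (B x)
    refine (sum_le_card_nsmul _ _ (prodP (P x) (B x) : ℤ) fun p hp => ?_).trans_lt ?_
    · split_ifs with h
      · rw [← e x p hp h]
        exact_mod_cast Nat.mul_le_mul_right _ (Nat.mod_lt _ (h1 x p h).pos).le
      · positivity
    · rw [card_range, nsmul_eq_mul]
      exact_mod_cast Nat.mul_lt_mul_of_pos_right (by omega) h0
  rw [← Int.emod_def, Int.emod_eq_emod_iff_emod_sub_eq_zero]
  refine Int.emod_eq_zero_of_dvd ?_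
  rw [prodP, Nat.cast_prod]
  refine prod_dvd_of_coprime (fun p hp q hq e => Nat.isCoprime_iff_coprime.2 ((Nat.coprime_primes
    (h1 x p (mem_filter.1 hp).2) (h1 x q (mem_filter.1 hq).2)).2 e)) fun p hp => ?_
  obtain ⟨d1, d2⟩ := mem_filter.1 hp
  have d3 := h1 x p d2
  have : Fact p.Prime := ⟨d3⟩
  have d4 : (C (x, ⟨p⟩) p : ZMod p) = prodP (fun r => P x r && !decide (r = p)) (B x) :=
    (c2 _ p d3).trans (Int.cast_natCast _)
  have d5 := c4 x p d3 (by
    rw [d4, prodP, Nat.cast_prod, prod_ne_zero_iff]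
    intro q hq e
    have hq := (mem_filter.1 hq).2
    simp only [Bool.and_eq_true, Bool.not_eq_true', decide_eq_false_iff_not] at hq
    exact hq.2 ((Nat.prime_dvd_prime_iff_eq d3 (h1 x q hq.1)).1
      ((ZMod.natCast_eq_zero_iff _ _).1 e)).symm)
  rw [← ZMod.intCast_zmod_eq_zero_iff_dvd, Int.cast_sub, Int.cast_sum,
    sum_eq_single p (fun q _ e => ?_) (fun h => (h d1).elim), if_pos d2, Int.cast_mul,
    Int.cast_natCast, Int.cast_natCast, ZMod.natCast_mod, Nat.cast_mul, ← d4, mul_assoc, d5,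
    h2 x p d2, mul_one, sub_self]
  split_ifs
  · rw [ZMod.intCast_zmod_eq_zero_iff_dvd]
    exact Dvd.dvd.mul_left (Int.natCast_dvd_natCast.2 (dvd_prod_of_mem (fun r => r)
      (mem_filter.2 ⟨d1, by simp [d2, e.symm]⟩))) _
  · exact Int.cast_zero

theorem exact_div (H : Col) {W Y : α → ℤ} (hW : Good W) (hY : Good Y)
    (h : ∀ x, Y x ≠ 0 ∧ Y x ∣ W x) : Good fun x => W x / Y x := by
  obtain ⟨RW, a1, a2⟩ := hW.res H
  obtain ⟨RY, a3, a4⟩ := hY.res H
  obtain ⟨I, a5, a6⟩ := H.inv a3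
  obtain ⟨⟨S, s1, s2⟩, -⟩ := hW
  obtain ⟨⟨U, s3, s4⟩, -⟩ := hY
  obtain ⟨j, b1, b2⟩ := ((s1.add (QB.const 1)).add s3).bits
  have h1 : ∀ x q, (decide q.Prime && !decide (RY x q % q = 0)) = true ↔
      q.Prime ∧ (Y x : ZMod q) ≠ 0 := fun x q => by
    simp only [Bool.and_eq_true, Bool.not_eq_true', decide_eq_false_iff_not, decide_eq_true_eq]
    exact and_congr_right fun hq => by
      rw [← a4 x q hq, Ne, ZMod.natCast_eq_zero_iff, Nat.dvd_iff_mod_eq_zero]
  refine ((good_rem H (P := fun x q => decide q.Prime && !decide (RY x q % q = 0))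
    (B := fun x => 2 ^ (2 * j x + 2)) (X := fun x => W x / Y x + 2 ^ S x)
    (R := fun x p => RW x p * I x p + if p = 0 then 0 else 2 ^ S x % p) (QB.twoPow (by fun_prop))
    (QT.and (H.prime (by fun_prop)) (QB.eq (a3.mod (by fun_prop)) (QB.const 0)).not)
    (fun x q hq => ((h1 x q).1 hq).1)
    ((a1.mul a5).add (QB.powMod (QB.const 2) (by fun_prop) (by fun_prop))) fun x p hp => ?_).sub
      (Good.twoPow H s1)).of_eq fun x => ?_
  · obtain ⟨c1, c2⟩ := (h1 x p).1 hp
    have c3 := a6 x p c1 (by rwa [a4 x p c1])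
    rw [a4 x p c1] at c3
    rw [if_neg c1.ne_zero, Nat.cast_add, Nat.cast_mul, a2 x p c1, ZMod.natCast_mod, Int.cast_add]
    conv_lhs => rw [← Int.ediv_mul_cancel (h x).2, Int.cast_mul, mul_assoc, mul_comm _ (I x p : ZMod p),
      c3, mul_one]
    simp
  have c1 := (Int.natAbs_ediv_le_natAbs (W x) (Y x)).trans (s2 x)
  have c2 := lt_primorial (b2 x)
  have c3 : ∏ q ∈ (Nat.primesLE (2 ^ (2 * j x + 2))).filter fun q => (Y x : ZMod q) = 0, q ≤
      2 ^ U x := by
    refine (Nat.le_of_dvd (Int.natAbs_pos.2 (h x).1) (prod_primes_dvd _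
      (fun p hp => (Nat.mem_primesLE.1 (mem_filter.1 hp).1).2.prime) fun p hp => ?_)).trans (s4 x)
    exact Int.natCast_dvd.1 ((ZMod.intCast_zmod_eq_zero_iff_dvd _ _).1 (mem_filter.1 hp).2)
  have c4 : prodP (fun q => decide q.Prime && !decide (RY x q % q = 0)) (2 ^ (2 * j x + 2)) =
      ∏ q ∈ (Nat.primesLE (2 ^ (2 * j x + 2))).filter fun q => ¬ (Y x : ZMod q) = 0, q := by
    refine prod_congr (Finset.ext fun q => ?_) fun _ _ => rfl
    simp only [mem_filter, h1, Nat.mem_primesLE, mem_range, Nat.lt_succ_iff, and_assoc]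
  rw [primorial_eq_prod_primesLE, ← prod_filter_mul_prod_filter_not _ fun q => (Y x : ZMod q) = 0,
    ← c4, pow_add, mul_comm] at c2
  have c5 := Nat.lt_of_mul_lt_mul_left (c2.trans_le (Nat.mul_le_mul_right _ c3))
  rw [pow_succ] at c5
  have c6 : ((2 ^ S x : ℕ) : ℤ) = 2 ^ S x := by simp
  rw [Int.emod_eq_of_lt (by omega) (by omega), add_sub_cancel_right]

theorem div_prodP (H : Col) {P : α → ℕ → Bool} {B : α → ℕ} (hB : QB B)
    (hP : QT fun p : α × Bin => P p.1 p.2.val) (h1 : ∀ x q, P x q = true → q.Prime) {X : α → ℤ}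
    (hX : Good X) : Good fun x => X x / prodP (P x) (B x) := by
  obtain ⟨R, a1, a2⟩ := hX.res H
  have h0 : ∀ x, (prodP (P x) (B x) : ℤ) ≠ 0 := fun x => by
    exact_mod_cast (prodP_pos (h1 x) _).ne'
  refine (exact_div H (hX.sub (good_rem H hB hP h1 a1 fun x p hp => a2 x p (h1 x p hp)))
    (good_prodP H hB hP) fun x => ⟨h0 x, Int.dvd_self_sub_emod⟩).of_eq fun x => ?_
  rw [Int.emod_def, sub_sub_cancel, Int.mul_ediv_cancel_left _ (h0 x)]

theorem Good.ediv (H : Col) {X Y : α → ℤ} (hX : Good X) (hY : Good Y) (h0 : ∀ x, 0 < Y x) :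
    Good fun x => X x / Y x := by
  obtain ⟨S, s1, s2⟩ := hX.1
  obtain ⟨L, s3, s4⟩ := hY.1
  have hn : QB fun x => S x + 1 := by fun_prop
  obtain ⟨i, b1, b2⟩ := (hn.mul s3).bits
  have hB : QB fun x => 2 ^ (2 * (2 * i x + 4) + 2) := QB.twoPow (by fun_prop)
  have hc : ∀ {γ : Type} [Enc γ] {q : γ → ℕ}, QB q → QB fun x => Nat.count Nat.Prime (q x) :=
    fun hq => (H.cnt (φ := fun _ r => decide r.Prime) hq (H.prime (by fun_prop))).of_eq fun _ => by
      simp [cnt, Nat.count_eq_card_filter_range]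
  obtain ⟨A, a1, a2, a3⟩ : ∃ A : α → ℕ → ℤ, (Good fun q : α × Bin => A q.1 q.2.val) ∧
      (∀ x, ∀ j < S x + 1, Y x ≤ A x j) ∧ ∀ x, ∏ j ∈ range (S x + 1), A x j =
        prodP (fun q => decide q.Prime && decide (Nat.count Nat.Prime q / L x < S x + 1))
          (2 ^ (2 * (2 * i x + 4) + 2)) := by
    refine ⟨fun x j => prodP (fun q => decide q.Prime && decide (Nat.count Nat.Prime q / L x = j))
      (2 ^ (2 * (2 * i x + 4) + 2)), good_prodP H (hB.comp QT.fst') (QT.and (H.prime (by fun_prop))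
        (QB.eq ((hc (by fun_prop)).div (by fun_prop)) (by fun_prop))), fun x j hj => ?_,
      fun x => by rw [← prod_blocks, Nat.cast_prod]⟩
    have := (s4 x).trans (block_le (many_primes (b2 x)) hj)
    dsimp only
    omega
  obtain ⟨U, s5, s6⟩ := a1.1
  have hk : QB fun q : α × Bin =>
      least (U q + 1) fun k => decide (0 < 2 ^ (k + 1) * Y q.1 - A q.1 q.2.val) :=
    H.least (by fun_prop) ((((Good.twoPow H (by fun_prop)).mul hY.lift.lift).sub a1.lift).pos H)
  obtain ⟨F, f1, f2⟩ : ∃ F : α → ℕ → ℤ, (Good fun q : α × Bin => F q.1 q.2.val) ∧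
      ∀ x, ∀ j < S x + 1, 0 ≤ F x j ∧ 2 * F x j ≤ A x j ∧ Y x ∣ A x j - F x j := by
    refine ⟨fun x j => A x j - 2 ^ (least (U (x, ⟨j⟩) + 1) fun k =>
      decide (0 < 2 ^ (k + 1) * Y x - A x j)) * Y x,
      a1.sub ((Good.twoPow H hk).mul hY.lift), fun x j hj => ?_⟩
    have c0 := h0 x
    have c1 : 0 < 2 ^ (U (x, ⟨j⟩) + 1) * Y x - A x j := by
      have c2 := s6 (x, ⟨j⟩)
      have c3 : ((2 ^ U (x, ⟨j⟩) : ℕ) : ℤ) = 2 ^ U (x, ⟨j⟩) := by simp
      have c4 : (2 : ℤ) ^ (U (x, ⟨j⟩) + 1) ≤ 2 ^ (U (x, ⟨j⟩) + 1) * Y x :=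
        le_mul_of_one_le_right (by positivity) c0
      have c5 : (0 : ℤ) < 2 ^ U (x, ⟨j⟩) := by positivity
      rw [pow_succ] at c4 ⊢
      dsimp only at c2
      omega
    obtain ⟨c2, c3⟩ := least_spec (s := U (x, ⟨j⟩) + 1)
      (φ := fun k => decide (0 < 2 ^ (k + 1) * Y x - A x j)) ⟨_, Nat.lt_succ_self _, decide_eq_true c1⟩
    have c4 := c3 _ (Nat.lt_succ_self _) (decide_eq_true c1)
    dsimp only
    generalize least _ _ = k at *
    have c5 := of_decide_eq_true c2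
    rw [pow_succ, mul_right_comm] at c5
    refine ⟨?_, by omega, by rw [sub_sub_cancel]; exact dvd_mul_left _ _⟩
    cases k with
    | zero => simpa using a2 x j hj
    | succ k =>
      by_contra c6
      have := c3 k (by omega) (decide_eq_true (by omega))
      omega
  have hM := Good.prod H hn a1
  have hM0 : ∀ x, 0 < ∏ j ∈ range (S x + 1), A x j := fun x =>
    prod_pos fun j hj => (h0 x).trans_le (a2 x j (mem_range.1 hj))
  have hW := exact_div H (hM.sub (Good.prod H hn f1)) hY fun x =>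
    ⟨(h0 x).ne', (prod_half _ (f2 x)).2.2⟩
  have hQ := ((div_prodP H hB (P := fun x q => decide q.Prime &&
    decide (Nat.count Nat.Prime q / L x < S x + 1)) (QT.and (H.prime (by fun_prop))
      (QB.lt ((hc (by fun_prop)).div (by fun_prop)) (by fun_prop)))
    (fun _ _ h => of_decide_eq_true (Bool.and_eq_true_iff.1 h).1) (hX.mul hW))).sub (Good.const 1)
  simp only [← a3] at hQ
  refine ((small_div H (hX.sub (hQ.mul hY)) hY (QB.const 3) fun x => ⟨h0 x, near_div (h0 x) (hM0 x)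
    (S := 2 ^ S x) (prod_half _ (f2 x)).1 ?_ ?_ (Int.ediv_mul_cancel (prod_half _ (f2 x)).2.2)⟩).add
    hQ).of_eq fun x => ?_
  · rw [← Int.natCast_natAbs]
    exact_mod_cast s2 x
  · rw [← pow_succ]
    exact (prod_half _ (f2 x)).2.1
  · rw [← Int.add_mul_ediv_right _ _ (h0 x).ne', sub_add_cancel]

theorem pb_cons_env {V : α → List ℕ} (hV : ∀ i, QB fun x => (V x).getD i 0) (i : ℕ) :
    QB fun p : α × Bin => (p.2.val :: V p.1).getD i 0 := by
  cases i with
  | zero => exact QB.val QT.snd'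
  | succ i => exact (hV i).comp QT.fst'

theorem good_nd (H : Col) (e : Form) : ∀ {α : Type} [Enc α] {n : α → ℕ} {l r : α → Multiset ℕ}
    {V : α → List ℕ}, QB n → (QB fun p : α × Bin => (l p.1).count p.2.val) →
    (QB fun p : α × Bin => (r p.1).count p.2.val) → (∀ i, QB fun x => (V x).getD i 0) →
    (Good fun x => (nd (n x) (l x) (r x) e (V x)).1) ∧
      Good fun x => (nd (n x) (l x) (r x) e (V x)).2 := by
  have lift : ∀ {α : Type} [Enc α] {l : α → Multiset ℕ},
      (QB fun p : α × Bin => (l p.1).count p.2.val) →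
      QB fun p : (α × Bin) × Bin => (l p.1.1).count p.2.val := fun h =>
    h.comp (g := fun p : (_ × Bin) × Bin => (p.1.1, p.2)) (by fun_prop)
  induction e with
  | num c => intro α _ n l r V _ _ _ _; exact ⟨Good.const c, Good.const 1⟩
  | var i => intro α _ n l r V _ _ _ hV; exact ⟨Good.ofQB (hV i), Good.const 1⟩
  | multL i =>
    intro α _ n l r V _ hl _ hV
    exact ⟨Good.ofQB (QB.app (f := fun x t => (l x).count t) hl QT.id (hV i)), Good.const 1⟩
  | multR i =>
    intro α _ n l r V _ _ hr hV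
    exact ⟨Good.ofQB (QB.app (f := fun x t => (r x).count t) hr QT.id (hV i)), Good.const 1⟩
  | add a b ha hb =>
    intro α _ n l r V hn hl hr hV
    obtain ⟨a1, a2⟩ := ha hn hl hr hV
    obtain ⟨b1, b2⟩ := hb hn hl hr hV
    exact ⟨(a1.mul b2).add (b1.mul a2), a2.mul b2⟩
  | mul a b ha hb =>
    intro α _ n l r V hn hl hr hV
    obtain ⟨a1, a2⟩ := ha hn hl hr hV
    obtain ⟨b1, b2⟩ := hb hn hl hr hV
    exact ⟨a1.mul b1, a2.mul b2⟩
  | inv a ha =>
    intro α _ n l r V hn hl hr hV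
    obtain ⟨a1, a2⟩ := ha hn hl hr hV
    have h := (a1.zero H).of_eq (g := fun x => decide ((nd (n x) (l x) (r x) a (V x)).1 = 0))
      fun _ => by congr
    exact ⟨Good.ite h (Good.const 0) a2, Good.ite h (Good.const 1) a1⟩
  | floor a ha =>
    intro α _ n l r V hn hl hr hV
    obtain ⟨a1, a2⟩ := ha hn hl hr hV
    exact ⟨(a1.mul a2).ediv H (a2.mul a2) fun x =>
      mul_self_pos.2 (Int.cast_ne_zero.1 (nd_spec _ _ _ a _).1), Good.const 1⟩
  | sum a ha =>
    intro α _ n l r V hn hl hr hV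
    obtain ⟨a1, a2⟩ := ha (α := α × Bin) (n := fun p => n p.1) (l := fun p => l p.1)
      (r := fun p => r p.1) (V := fun p => p.2.val :: V p.1) (hn.comp QT.fst') (lift hl) (lift hr)
      (pb_cons_env hV)
    have hs : QB fun x => n x + 1 := by fun_prop
    refine ⟨Good.sum H hs (a1.mul (Good.prod H (hs.comp QT.fst') (Good.ite
      (QB.eq (by fun_prop) (by fun_prop)) (Good.const 1) ?_))), Good.prod H hs a2⟩
    exact a2.comp (g := fun p : (α × Bin) × Bin => (p.1.1, p.2)) (by fun_prop)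
  | prod a ha =>
    intro α _ n l r V hn hl hr hV
    obtain ⟨a1, a2⟩ := ha (α := α × Bin) (n := fun p => n p.1) (l := fun p => l p.1)
      (r := fun p => r p.1) (V := fun p => p.2.val :: V p.1) (hn.comp QT.fst') (lift hl) (lift hr)
      (pb_cons_env hV)
    have hs : QB fun x => n x + 1 := by fun_prop
    exact ⟨Good.prod H hs a1, Good.prod H hs a2⟩

/-- The zero test of an expression on implicit inputs. -/
theorem pt_zero (H : Col) (e : Form) {n : α → ℕ} {l r : α → Multiset ℕ} (hn : QB n)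
    (hl : QB fun p : α × Bin => (l p.1).count p.2.val)
    (hr : QB fun p : α × Bin => (r p.1).count p.2.val) :
    QT fun x => decide (e.val (n x) (l x) (r x) [] = 0) := by
  refine ((good_nd H e (V := fun _ => []) hn hl hr fun i =>
    (QB.const 0).of_eq fun _ => by simp).1.zero H).of_eq fun x => ?_
  obtain ⟨h1, h2⟩ := nd_spec (n x) (l x) (r x) e []
  rw [decide_eq_decide, h2, div_eq_zero_iff, or_iff_left h1, Int.cast_eq_zero]

/-- Sums over the list are easy. -/
def IL (L : α → List ℕ) : Prop :=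
  ∀ φ : α → ℕ → ℕ, (QB fun p : α × Bin => φ p.1 p.2.val) → QB fun x => ((L x).map (φ x)).sum

theorem IL.nil : IL fun _ : α => [] := fun _ _ => QB.const 0

theorem IL.cons {f : α → ℕ} {L : α → List ℕ} (hf : QB f) (hL : IL L) : IL fun x => f x :: L x :=
  fun φ h => (QB.app h QT.id hf).add (hL φ h)

theorem IL.append {L L' : α → List ℕ} (hL : IL L) (hL' : IL L') : IL fun x => L x ++ L' x :=
  fun φ h => ((hL φ h).add (hL' φ h)).of_eq fun _ => by simp

theorem IL.const (L : List ℕ) : IL fun _ : α => L := by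
  induction L with
  | nil => exact IL.nil
  | cons a L ih => exact IL.cons (QB.const a) ih

theorem IL.flatMap (H : Col) {s : α → ℕ} {G : α → ℕ → List ℕ} (hs : QB s)
    (hG : IL fun p : α × Bin => G p.1 p.2.val) : IL fun x => (List.range (s x)).flatMap (G x) := by
  intro φ h
  refine (H.sum (f := fun x i => ((G x i).map (φ x)).sum) hs (hG (fun p => φ p.1)
    (h.comp (g := fun p : (α × Bin) × Bin => (p.1.1, p.2)) (by fun_prop)))).of_eq fun x => ?_
  dsimp only
  induction s x with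
  | zero => rfl
  | succ n ih => rw [sum_range_succ, ih, List.range_succ]; simp

theorem IL.map (H : Col) {s : α → ℕ} {f : α → ℕ → ℕ} (hs : QB s)
    (hf : QB fun p : α × Bin => f p.1 p.2.val) : IL fun x => (List.range (s x)).map (f x) := by
  simp only [List.map_eq_flatMap]
  exact IL.flatMap H hs (IL.cons hf IL.nil)

theorem IL.sum {L : α → List ℕ} (hL : IL L) : QB fun x => (L x).sum :=
  (hL (fun _ y => y) (by fun_prop)).of_eq fun _ => by simp

theorem IL.count {L : α → List ℕ} (hL : IL fun p : α × Bin => L p.1) :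
    QB fun p : α × Bin => (L p.1 : Multiset ℕ).count p.2.val := by
  refine (hL (fun p y => if y = p.2.val then 1 else 0)
    (QB.ite (QB.eq (by fun_prop) (by fun_prop)) (QB.const 1) (QB.const 0))).of_eq fun p => ?_
  rw [Multiset.coe_count]
  dsimp only
  induction L p.1 with
  | nil => rfl
  | cons a l ih => rw [List.map_cons, List.sum_cons, ih, List.count_cons, add_comm]; simp

attribute [local fun_prop] QB.lt QB.eq

@[fun_prop] theorem pb_szL {f g h k : α → ℕ} (hf : QB f) (hg : QB g) (hh : QB h) (hk : QB k) :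
    QB fun x => szL (f x) (g x) (h x) (k x) := by
  unfold szL
  fun_prop

@[fun_prop] theorem pb_szS {f g h k : α → ℕ} (hf : QB f) (hg : QB g) (hh : QB h) (hk : QB k) :
    QB fun x => szS (f x) (g x) (h x) (k x) := by
  unfold szS
  fun_prop

@[fun_prop] theorem pb_bb {f g : α → ℕ} (hf : QB f) (hg : QB g) :
    QB fun x => bb (f x) (g x) := by
  unfold bb
  fun_prop

section ab

variable {n m M : α → ℕ} {a : α → ℕ → ℕ → Bool → ℕ} {b : α → ℕ → ℕ}

theorem il_lam0 (H : Col) (hn : QB n) (hm : QB m) (hM : QB M)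
    (ha : ∀ β, QB fun p : (α × Bin) × Bin => a p.1.1 p.1.2.val p.2.val β) :
    IL fun x => lam0 (n x) (m x) (a x) (M x) := by
  have h1 := ha true
  have h2 := ha false
  unfold lam0 sizes
  refine (IL.const _).append (IL.append (IL.flatMap H hm (IL.flatMap H (by fun_prop)
    (IL.cons (pb_szL ?_ ?_ ?_ (h1.add (QB.const 1))) (IL.cons ?_
      (IL.cons (pb_szL ?_ ?_ ?_ (h2.add (QB.const 1))) (IL.cons ?_ IL.nil))))))
    (IL.flatMap H hn (IL.cons ?_ (IL.cons ?_ IL.nil)))) <;> fun_prop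

theorem il_lamL (H : Col) (hn : QB n) (hm : QB m) (hM : QB M)
    (ha : ∀ β, QB fun p : (α × Bin) × Bin => a p.1.1 p.1.2.val p.2.val β) :
    IL fun x => lamL (n x) (m x) (a x) (M x) := by
  have h := il_lam0 H hn hm hM ha
  unfold lamL mark
  refine h.append (IL.append (IL.flatMap H hn (IL.cons (QB.mul (QB.add (h.sum.comp QT.fst') ?_) ?_)
    (IL.cons (QB.mul (QB.add (h.sum.comp QT.fst') ?_) ?_) IL.nil)))
    (IL.map H hm (QB.mul (QB.add (h.sum.comp QT.fst') ?_) ?_))) <;> fun_prop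

theorem il_rhoL (H : Col) (hn : QB n) (hm : QB m) (hM : QB M)
    (ha : ∀ β, QB fun p : (α × Bin) × Bin => a p.1.1 p.1.2.val p.2.val β)
    (hb : QB fun p : α × Bin => b p.1 p.2.val) :
    IL fun x => rhoL (n x) (m x) (a x) (b x) (M x) := by
  have h := (il_lam0 H hn hm hM ha).sum
  unfold rhoL mark tL tE
  refine (IL.const _).append (IL.append (IL.flatMap H hn (IL.cons
    (QB.add (QB.mul (QB.add (h.comp QT.fst') ?_) ?_) (QB.add (IL.map H ?_ ?_).sum ?_)) (IL.cons
    (QB.add (QB.mul (QB.add (h.comp QT.fst') ?_) ?_) (QB.add (IL.map H ?_ ?_).sum ?_)) IL.nil)))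
    (IL.map H hm (QB.add (QB.mul (QB.add (h.comp QT.fst') ?_) ?_) (QB.add (IL.map H ?_ ?_).sum
      (QB.mul ?_ (QB.add hb ?_)))))) <;> fun_prop

end ab

theorem il_sys (H : Col) {n m : α → ℕ} {E : α → ℕ → List (Bin × Bool) × ℕ} (hn : PB n) (hm : PB m)
    (hE : PT fun p : α × Bin => E p.1 p.2.val) :
    (IL fun x => lamS (bsN (n x)) ((List.range (m x)).map (E x))) ∧
      IL fun x => rhoS (bsN (n x)) ((List.range (m x)).map (E x)) := by
  have h1 : PT fun p : α × Bin => ((List.range (m p.1)).map (E p.1)).getD p.2.val ([], 0) := by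
    refine (PT.ite (p := fun p : α × Bin => p.2.val < m p.1) (PB.lt (by fun_prop) (by fun_prop)) hE
      (PT.const ([], 0))).of_eq fun p => ?_
    by_cases h : p.2.val < m p.1 <;> simp [List.getD_eq_getElem?_getD, h]
  have h2 : PT fun p : α × Bin => (bsN (n p.1)).getD p.2.val default := by
    refine (PT.ite (p := fun p : α × Bin => p.2.val < n p.1) (PB.lt (by fun_prop) (by fun_prop))
      PT.snd' (PT.const default)).of_eq fun p => ?_
    by_cases h : p.2.val < n p.1 <;> simp [bsN, List.getD_eq_getElem?_getD, h]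
  have h3 : ∀ β, QB fun p : (α × Bin) × Bin =>
      a0 (bsN (n p.1.1)) ((List.range (m p.1.1)).map (E p.1.1)) p.1.2.val p.2.val β := fun β =>
    QB.ofPB (PB.ofPT (PT.countP (PT.deq PT.snd' (PT.mk (h2.comp
      (g := fun q : ((α × Bin) × Bin) × Bin × Bool => (q.1.1.1, q.1.2)) (by fun_prop)) (PT.const β)))
      (h1.comp PT.fst').fst))
  have h4 : QB fun x => tot ((List.range (m x)).map (E x)) :=
    (IL.map H (f := fun x i => (E x i).1.length) (QB.ofPB hm)
      (QB.ofPB (PB.ofPT hE.fst.length))).sum.of_eq fun x => by simp [tot, Function.comp_def]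
  have h5 : QB fun x => ((List.range (m x)).map (E x)).length :=
    (QB.ofPB hm).of_eq fun x => by simp
  have h6 : QB fun x => (bsN (n x)).length := (QB.ofPB hn).of_eq fun x => by simp [bsN]
  have h7 := QB.ofPB (PB.ofPT h1.snd)
  have ha : ∀ β, QB fun p : (α × Bin) × Bin =>
      aS (bsN (n p.1.1)) ((List.range (m p.1.1)).map (E p.1.1)) p.1.2.val p.2.val β := fun β => by
    unfold aS
    refine QB.ite (QB.lt (by fun_prop) (h5.comp QT.fst'.fst)) (h3 β) (QB.sub (h4.comp QT.fst'.fst)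
      (IL.sum (IL.map H (f := fun (p : (α × Bin) × Bin) e => a0 (bsN (n p.1.1))
        ((List.range (m p.1.1)).map (E p.1.1)) e p.2.val β) (h5.comp QT.fst'.fst) ?_)))
    exact (h3 β).comp (g := fun q : ((α × Bin) × Bin) × Bin => ((q.1.1.1, q.2), q.1.2))
      (by fun_prop)
  have hb : QB fun p : α × Bin =>
      bS (bsN (n p.1)) ((List.range (m p.1)).map (E p.1)) p.2.val := by
    unfold bS
    refine QB.ite (QB.lt (by fun_prop) (h5.comp QT.fst')) h7
      (QB.sub ((h6.mul h4).comp QT.fst') (IL.sum (IL.map H (f := fun (p : α × Bin) e =>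
        (((List.range (m p.1)).map (E p.1)).getD e ([], 0)).2) (h5.comp QT.fst') ?_)))
    exact h7.comp (g := fun q : (α × Bin) × Bin => (q.1.1, q.2)) (by fun_prop)
  unfold lamS rhoS
  exact ⟨il_lamL H (a := fun x => aS (bsN (n x)) ((List.range (m x)).map (E x))) h6
      (h5.add (QB.const 1)) ((h4.add h5).add (QB.const 1)) ha,
    il_rhoL H (a := fun x => aS (bsN (n x)) ((List.range (m x)).map (E x)))
      (b := fun x => bS (bsN (n x)) ((List.range (m x)).map (E x))) h6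
      (h5.add (QB.const 1)) ((h4.add h5).add (QB.const 1)) ha hb⟩

theorem pt_zero_sys (H : Col) (c : ℕ) (e : Form) (N : ℕ) {n m : α → ℕ}
    {E : α → ℕ → List (Bin × Bool) × ℕ} (hn : PB n) (hm : PB m)
    (hE : PT fun p : α × Bin => E p.1 p.2.val) :
    QT fun x => tst c e N (lamS (bsN (n x)) ((List.range (m x)).map (E x)))
      (rhoS (bsN (n x)) ((List.range (m x)).map (E x))) := by
  have h := il_sys H (α := α × Bin) (n := fun p => n p.1) (m := fun p => m p.1)
    (E := fun p => E p.1) (hn.comp PT.fst') (hm.comp PT.fst')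
    (hE.comp (g := fun q : (α × Bin) × Bin => (q.1.1, q.2)) (by fun_prop))
  have h1 := (il_sys H hn hm hE).1.sum
  obtain ⟨L, R, e1, e2⟩ : ∃ L R : α → List ℕ,
      (∀ x, lamS (bsN (n x)) ((List.range (m x)).map (E x)) = L x) ∧
      ∀ x, rhoS (bsN (n x)) ((List.range (m x)).map (E x)) = R x := ⟨_, _, fun _ => rfl, fun _ => rfl⟩
  simp only [e1, e2] at h h1 ⊢
  have h2 : QB fun x => (L x).sum + N + 1 := (h1.add (QB.const N)).add (QB.const 1)
  exact pt_zero H e (l := fun x => (((L x).sum + N + 1) :: L x : List ℕ))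
    (r := fun x => (((L x).sum + N + 1) :: R x : List ℕ))
    ((qb_range (Nat.le_succ _) c).comp (h2.add h1))
    (IL.count (L := fun x => ((L x).sum + N + 1) :: L x) (IL.cons (h2.comp QT.fst') h.1))
    (IL.count (L := fun x => ((L x).sum + N + 1) :: R x) (IL.cons (h2.comp QT.fst') h.2))

/-- The description of an automaton and the logarithms of its padding and running time. -/
abbrev Desc : Type := (ℕ × List ℕ × List Bool × ℕ × ℕ × ℕ) × ℕ × ℕ

/-- The equations of the automaton run on its own padded description. -/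
def eqsD (z : Desc) : List (List (Bin × Bool) × ℕ) :=
  (List.range ((2 ^ z.2.2 + 1) * (2 ^ z.2.2 + 2) * (4 * z.1.1) + 1)).map
    (eqAt z.1.1 z.1.2.1 z.1.2.2.1 (row0 z.1.2.2.2 (enc (z, 2 ^ z.2.1))) (2 ^ z.2.2 + 2)
      (2 ^ z.2.2 + 1))

/-- Their variables. -/
def bsD (z : Desc) : List Bin := bsN (2 + (2 ^ z.2.2 + 1) * (2 ^ z.2.2 + 2) * z.1.1 ^ 4)

omit [Lv] in
theorem row_pad (c : ℕ × ℕ × ℕ) (z : α) (s i : ℕ) : row0 c (enc (z, s)) i =
    if i < (enc (z, ())).length + s then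
      (if (enc (z, ())).getD i false = true then c.1 else c.2.1) else c.2.2 := by
  have h1 : enc (z, s) = enc (z, ()) ++ List.replicate s false :=
    congrArg (· ++ List.replicate s false) (List.append_nil _).symm
  have h2 : (enc (z, s)).getD i false = (enc (z, ())).getD i false := by
    rw [h1, List.getD_eq_getElem?_getD, List.getD_eq_getElem?_getD, List.getElem?_append]
    split_ifs with h
    · rfl
    · rw [List.getElem?_eq_none (Nat.le_of_not_lt h), List.getElem?_replicate]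
      split_ifs <;> rfl
  rw [row0, h2, h1, List.length_append, List.length_replicate]

theorem qt_diag (H : Col) (c : ℕ) (e : Form) (N : ℕ) :
    QT fun z : Desc => tst c e N (lamS (bsD z) (eqsD z)) (rhoS (bsD z) (eqsD z)) := by
  have h2 : PB fun z : Desc => 2 ^ z.2.2 := PB.twoPow (by fun_prop)
  have h3 : PB fun p : Desc × Bin => row0 p.1.1.2.2.2 (enc (p.1, 2 ^ p.1.2.1)) p.2.val := by
    simp only [row_pad]
    exact PB.ite (PB.lt (by fun_prop) (PB.add (by fun_prop) (PB.twoPow (by fun_prop))))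
      (PB.ite ((PB.getD (l := fun p : Desc × Bin => enc (p.1, ())) (by fun_prop) (PB.val PT.snd')
        (PT.const false)).of_eq fun _ => by simp) (by fun_prop) (by fun_prop)) (by fun_prop)
  have h4 : PT fun p : Desc × Bin => eqAt p.1.1.1 p.1.1.2.1 p.1.1.2.2.1
      (row0 p.1.1.2.2.2 (enc (p.1, 2 ^ p.1.2.1))) (2 ^ p.1.2.2 + 2) (2 ^ p.1.2.2 + 1) p.2.val :=
    pt_eqAt (ini := fun p : Desc × Bin => row0 p.1.1.2.2.2 (enc (p.1, 2 ^ p.1.2.1))) (by fun_prop)
      (by fun_prop) (by fun_prop)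
      (h3.comp (g := fun q : (Desc × Bin) × Bin => (q.1.1, q.2)) (by fun_prop))
      ((h2.add (PB.const 2)).comp PT.fst') ((h2.add (PB.const 1)).comp PT.fst') (by fun_prop)
  have h5 := (h2.add (PB.const 1)).mul (h2.add (PB.const 2))
  unfold bsD eqsD
  exact pt_zero_sys H c e N (E := fun z : Desc => eqAt z.1.1 z.1.2.1 z.1.2.2.1
    (row0 z.1.2.2.2 (enc (z, 2 ^ z.2.1))) (2 ^ z.2.2 + 2) (2 ^ z.2.2 + 1))
    ((PB.const 2).add (h5.mul (by fun_prop))) ((h5.mul (by fun_prop)).add (PB.const 1)) h4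

theorem room (a C : ℕ) {t : ℕ → ℕ} (ht : Lib.Poly.IsPoly t) : ∃ j k,
    qp a (C + (2 * j + 1 + k)) ≤ 2 ^ j ∧ t (2 * (C + (2 * j + 1 + k)) + 1 + 2 ^ j) ≤ 2 ^ k := by
  obtain ⟨d, hd⟩ := poly_lg ht
  obtain ⟨i, hi⟩ := poly_le
    (t := fun i => ((C + 3 + 2 * d) * (i + 1) + (Lv.k + 1) + 2) ^ (a + 1)) (by fun_prop)
  obtain ⟨j, hj⟩ : ∃ j, ex (Lv.k + 1) i = j := ⟨_, rfl⟩
  obtain ⟨m, hm⟩ : ∃ m, C + (2 * j + 1 + d * (j + 1 + 1)) = m := ⟨_, rfl⟩
  have h1 : m ≤ ex (Lv.k + 1) ((C + 3 + 2 * d) * (i + 1)) :=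
    le_trans (by rw [hj, ← hm]; nlinarith [Nat.zero_le (C * j), Nat.zero_le (d * j)]) (mul_ex _ _ _)
  have h2 : qp (a + 1) m ≤ 2 ^ j := by
    rw [qp, ex_succ, ← hj]
    exact Nat.pow_le_pow_right two_pos (ex_mono _
      ((Nat.pow_le_pow_left (Nat.add_le_add_right (lg_ex _ h1) 2) _).trans hi))
  refine ⟨j, d * (j + 1 + 1), hm ▸ (qp_mono a.le_succ le_rfl).trans h2, (hd _ _ ?_).le⟩
  have h3 := ex_lg (Lv.k + 1) m
  have h4 := (Nat.pow_le_pow_right two_pos (ex_add Lv.k (lg^[Lv.k + 1] m) 2)).trans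
    (((ex_succ _ _).ge.trans (ex_mono _ (Nat.le_self_pow a.succ_ne_zero _))).trans h2)
  have h5 : 1 ≤ 2 ^ ex Lv.k (lg^[Lv.k + 1] m) := Nat.one_le_two_pow
  rw [ex_succ] at h3
  rw [pow_add _ _ 2] at h4
  rw [hm, pow_succ 2 j]
  omega

theorem not_zs (c : ℕ) (e : Form) (N : ℕ) : ¬ Zs c e N := by
  intro h
  obtain ⟨a, F, f1, f2⟩ := qt_diag (col_of_zs h) c e N
  obtain ⟨g, δ, acc, d, t, a1, a2, a3, a4⟩ := exists_ca f1
  obtain ⟨j, k, h1, h2⟩ := room a (2 * sz (g, δ, acc, d) + 1) a1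
  have h3 : sz (((g, δ, acc, d), j, k) : Desc) = 2 * sz (g, δ, acc, d) + 1 + (2 * j + 1 + k) := by
    rw [sz_pair (g, δ, acc, d), sz_pair j, sz_nat, sz_nat]
  have h4 := a4 (((g, δ, acc, d), j, k), 2 ^ j) (2 ^ k + 1) (2 ^ k + 2)
    (by rw [sz_pair, sz_nat, h3]; omega) (by omega)
  rw [f2 _ _ (h3 ▸ h1)] at h4
  obtain ⟨n, l, r, b1, b2, b3, b4⟩ := gap_run (acc := acc) a2
    (a3 (enc ((((g, δ, acc, d), j, k) : Desc), 2 ^ j))) (W := 2 ^ k + 2) (by omega) (2 ^ k)
  obtain ⟨μ, hμ⟩ := exists_mobius n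
  have h5 := h n l r _ _ b1 b2 b3 μ hμ
  rw [b4 μ hμ, h4, ← Bool.not_eq_true] at h5
  exact not_iff_self h5

omit [Lv] in
theorem no_form (k c : ℕ) (e : Form) (N : ℕ) : ∃ n ≥ N, ∃ (l r : n.Partition)
    (μ : n.Partition → n.Partition → ℤ), Refines l.parts r.parts ∧ IsMobius μ ∧
      ¬ (μ l r = 0 ↔ e.val (rg k c n) l.parts r.parts [] = 0) := by
  let _ : Lv := ⟨k⟩
  by_contra h
  simp only [not_exists, not_and, not_not] at h
  refine not_zs c e N fun n l r L R e1 e2 h1 μ h2 => ?_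
  obtain ⟨ν, hν⟩ := exists_mobius (n + N + 1 + n)
  have h3 : L.sum = n := by rw [← l.parts_sum, e1, Multiset.sum_coe]
  rw [← mu_grow h1 h2 hν, tst, decide_eq_true_eq, h3, ← e1, ← e2]
  exact h _ (by omega) (grow l N) (grow r N) ν
    (refines_cons.2 ⟨{n + N + 1}, l.parts, rfl, by simp, h1⟩) hν

end Pool.Agent.Work.MP_84e666_co.V
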